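import Pool.Agent.NH8.GD.Stm
import Pool.Agent.NH29.GN.Hilb

set_option autoImplicit false

/-!
# GE-RK: the rank of a sum of values
-/

namespace Pool.Agent.NH8.GD

open MvPolynomial Module Filter Pool.Agent.NH29.GN

namespace RK

variable {L : Type} [Field L] {M : ℕ}

theorem val_add (x : Fin (M + 1) → L) (β γ : Fin (M + 1) →₀ ℕ) :
    val x (β + γ) = val x β * val x γ := by
  unfold val
  rw [← Finset.prod_mul_distrib]
  exact Finset.prod_congr rfl fun i _ => by rw [Finsupp.add_apply, pow_add]

theorem val_single (x : Fin (M + 1) → L) (j : Fin (M + 1)) :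
    val x (Finsupp.single j 1) = x j := by
  unfold val
  rw [Finset.prod_eq_single j]
  · simp
  · intro i _ hi
    rw [Finsupp.single_eq_of_ne hi, pow_zero]
  · intro h
    exact absurd (Finset.mem_univ j) h

theorem val_smul (x : Fin (M + 1) → L) (c : L) (β : Fin (M + 1) →₀ ℕ) :
    val (fun i => c * x i) β = c ^ β.degree * val x β := by
  unfold val
  rw [Finset.prod_congr rfl fun i _ => mul_pow c (x i) (β i), Finset.prod_mul_distrib,
    Finset.prod_pow_eq_pow_sum, Finsupp.degree_eq_sum]

/-- the values of the monomials at the points -/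
def uu {δ : ℕ} (x : Fin δ → Fin (M + 1) → L) (e : ℕ) (β : Mon M e) : Fin δ → L :=
  fun l => val (x l) β.1

theorem mul_lin {δ : ℕ} (x : Fin δ → Fin (M + 1) → L) (e : ℕ) (lam : Fin (M + 1) → L)
    {g : Fin δ → L} (hg : g ∈ Submodule.span L (Set.range (uu x e))) :
    (fun l => (∑ j, lam j * x l j) * g l) ∈ Submodule.span L (Set.range (uu x (e + 1))) := by
  have h1 : ∀ j : Fin (M + 1), (fun l => x l j * g l) ∈
      Submodule.span L (Set.range (uu x (e + 1))) := by
    intro j
    induction hg using Submodule.span_induction with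
    | mem g hg =>
      obtain ⟨β, rfl⟩ := hg
      refine Submodule.subset_span ⟨⟨Finsupp.single j 1 + β.1, ?_⟩, ?_⟩
      · rw [map_add, β.2, Finsupp.degree_single, add_comm]
      · funext l
        simp only [uu]
        rw [val_add, val_single]
    | zero =>
      have : (fun l => x l j * (0 : Fin δ → L) l) = 0 := by
        funext l
        simp
      rw [this]
      exact Submodule.zero_mem _
    | add g g' _ _ h h' =>
      have : (fun l => x l j * (g + g') l) = (fun l => x l j * g l) + fun l => x l j * g' l := by
        funext l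
        simp only [Pi.add_apply]
        ring
      rw [this]
      exact Submodule.add_mem _ h h'
    | smul a g _ h =>
      have : (fun l => x l j * (a • g) l) = a • fun l => x l j * g l := by
        funext l
        simp only [Pi.smul_apply, smul_eq_mul]
        ring
      rw [this]
      exact Submodule.smul_mem _ _ h
  have h2 : (fun l => (∑ j, lam j * x l j) * g l) = ∑ j, lam j • fun l => x l j * g l := by
    funext l
    rw [Finset.sum_apply, Finset.sum_mul]
    refine Finset.sum_congr rfl fun j _ => ?_
    simp only [Pi.smul_apply, smul_eq_mul]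
    ring
  rw [h2]
  exact Submodule.sum_mem _ fun j _ => Submodule.smul_mem _ _ (h1 j)

theorem prod_lin {δ : ℕ} (x : Fin δ → Fin (M + 1) → L) (lam : Fin δ → Fin (M + 1) → L)
    (T : Finset (Fin δ)) :
    (fun l => ∏ l' ∈ T, ∑ j, lam l' j * x l j) ∈
      Submodule.span L (Set.range (uu x T.card)) := by
  classical
  induction T using Finset.induction_on with
  | empty =>
    refine Submodule.subset_span ⟨⟨0, by simp⟩, ?_⟩
    funext l
    simp [uu, val]
  | insert a T ha ih =>
    rw [Finset.card_insert_of_notMem ha]
    have h := mul_lin x T.card (lam a) ih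
    have e : (fun l => ∏ l' ∈ insert a T, ∑ j, lam l' j * x l j) =
        fun l => (∑ j, lam a j * x l j) * ∏ l' ∈ T, ∑ j, lam l' j * x l j := by
      funext l
      rw [Finset.prod_insert ha]
    rw [e]
    exact h

/-- a linear form which vanishes at `y` and not at `x`, if `y` is not a multiple of `x` -/
theorem exists_lin (x y : Fin (M + 1) → L) (hx : x ≠ 0) :
    ∃ lam : Fin (M + 1) → L, ∑ j, lam j * x j ≠ 0 ∧
      ((∀ c : L, y ≠ fun i => c * x i) → ∑ j, lam j * y j = 0) := by
  classical
  obtain ⟨i, hi⟩ : ∃ i, x i ≠ 0 := by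
    by_contra h
    push Not at h
    exact hx (funext h)
  by_cases hy : ∃ c : L, y = fun i => c * x i
  · refine ⟨Pi.single i 1, ?_, fun h => absurd hy (by push Not; exact h)⟩
    simpa [Pi.single_apply] using hi
  · push Not at hy
    obtain ⟨j, hj⟩ : ∃ j, y i * x j - x i * y j ≠ 0 := by
      by_contra h
      push Not at h
      refine hy (y i / x i) ?_
      funext j
      have := h j
      field_simp
      linear_combination -this
    have key : ∀ z : Fin (M + 1) → L,
        ∑ l, (y i * (Pi.single j (1 : L) : Fin (M + 1) → L) l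
          - y j * (Pi.single i (1 : L) : Fin (M + 1) → L) l) * z l = y i * z j - y j * z i := by
      intro z
      simp only [sub_mul, mul_assoc, Finset.sum_sub_distrib, ← Finset.mul_sum, Pi.single_apply,
        ite_mul, one_mul, zero_mul, Finset.sum_ite_eq', Finset.mem_univ, if_true]
    refine ⟨fun l => y i * (Pi.single j (1 : L) : Fin (M + 1) → L) l
      - y j * (Pi.single i (1 : L) : Fin (M + 1) → L) l, ?_, fun _ => ?_⟩
    · rw [key]
      intro h
      apply hj
      linear_combination h
    · rw [key]
      ring

end RK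

open RK in
theorem rk : RkStm := by
  classical
  intro K L _ _ _ _ _ M δ D a x ha hx hprop l₀ hnc
  have hcL : CharZero L := charZero_of_injective_algebraMap (algebraMap K L).injective
  set w : Mon M D → L := fun β => ∑ l, a l * val (x l) β.1 with hw
  set R := Submodule.span K (Set.range w) with hR
  by_cases hsmall : D + 2 ≤ δ
  · exact hsmall.trans (Nat.le_add_left _ _)
  have hδ : 1 ≤ δ := (Nat.zero_le _).trans_lt l₀.2
  obtain ⟨e, rfl⟩ : ∃ e, δ = e + 1 := ⟨δ - 1, by omega⟩
  obtain ⟨E, rfl⟩ : ∃ E, D = E + e := ⟨D - e, by omega⟩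
  -- a basis of the span of the vectors of values
  have hex := Submodule.exists_fun_fin_finrank_span_eq L (Set.range (uu x e))
  have hsδ : finrank L (Submodule.span L (Set.range (uu x e))) ≤ e + 1 := by
    have h1 := Submodule.finrank_le (Submodule.span L (Set.range (uu x e)))
    rwa [finrank_fin_fun] at h1
  generalize finrank L (Submodule.span L (Set.range (uu x e))) = s at hex hsδ
  obtain ⟨f, hf1, hf2, hf3⟩ := hex
  choose bt hbt using hf1
  have hRfin : FiniteDimensional K R := FiniteDimensional.span_of_finite K (Set.finite_range w)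
  -- the map Ψ
  have hdeg : ∀ (γ : Mon M E) (i : Fin s), (γ.1 + (bt i).1).degree = E + e := by
    intro γ i
    rw [map_add, γ.2, (bt i).2]
  have hmemR : ∀ (γ : Mon M E) (i : Fin s), w ⟨γ.1 + (bt i).1, hdeg γ i⟩ ∈ R := fun γ i =>
    Submodule.subset_span ⟨_, rfl⟩
  set Ψ : (Mon M E → K) →ₗ[K] (Fin s → R) :=
    LinearMap.pi fun i => Fintype.linearCombination K
      fun γ : Mon M E => (⟨w ⟨γ.1 + (bt i).1, hdeg γ i⟩, hmemR γ i⟩ : R) with hΨ
  set φ : (Mon M E → K) →ₗ[K] L := Fintype.linearCombination K fun γ : Mon M E => val (x l₀) γ.1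
    with hφ
  -- evaluation
  set ev : (Mon M E → K) → Fin (e + 1) → L := fun A l => ∑ γ, A γ • val (x l) γ.1 with hev
  have hker : LinearMap.ker Ψ ≤ LinearMap.ker φ := by
    intro A hA
    rw [LinearMap.mem_ker] at hA ⊢
    -- the functional
    have h1 : ∀ i : Fin s, ∑ l, a l * ev A l * f i l = 0 := by
      intro i
      have h2 := congrFun hA i
      have h3 : ((Ψ A i : R) : L) = 0 := by rw [h2]; rfl
      have h4 : ((Ψ A i : R) : L) = ∑ γ, A γ • w ⟨γ.1 + (bt i).1, hdeg γ i⟩ := by
        simp only [hΨ, LinearMap.pi_apply, Fintype.linearCombination_apply]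
        rw [Submodule.coe_sum]
        rfl
      rw [h4] at h3
      rw [← h3]
      simp only [hw, hev, Finset.mul_sum, Finset.sum_mul, Finset.smul_sum]
      rw [Finset.sum_comm]
      refine Finset.sum_congr rfl fun γ _ => Finset.sum_congr rfl fun l _ => ?_
      rw [val_add, ← hbt i]
      simp only [uu, Algebra.smul_def]
      ring
    have h2 : ∀ g ∈ Submodule.span L (Set.range (uu x e)), ∑ l, a l * ev A l * g l = 0 := by
      intro g hg
      rw [← hf2] at hg
      induction hg using Submodule.span_induction with
      | mem g hg =>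
        obtain ⟨i, rfl⟩ := hg
        exact h1 i
      | zero => simp
      | add g g' _ _ h h' =>
        simp only [Pi.add_apply, mul_add, Finset.sum_add_distrib, h, h', add_zero]
      | smul b g _ h =>
        have : ∑ l, a l * ev A l * (b • g) l = b * ∑ l, a l * ev A l * g l := by
          rw [Finset.mul_sum]
          refine Finset.sum_congr rfl fun l _ => ?_
          simp only [Pi.smul_apply, smul_eq_mul]
          ring
        rw [this, h, mul_zero]
    -- the product of linear forms
    choose lam hlam1 hlam2 using fun l => exists_lin (x l₀) (x l) (hx l₀)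
    set T : Finset (Fin (e + 1)) := Finset.univ.erase l₀ with hT
    have hTc : T.card = e := by
      rw [hT, Finset.card_erase_of_mem (Finset.mem_univ _), Finset.card_univ, Fintype.card_fin]
      rfl
    have h3 := prod_lin x lam T
    rw [hTc] at h3
    have h4 := h2 _ h3
    set g : Fin (e + 1) → L := fun l => ∏ l' ∈ T, ∑ j, lam l' j * x l j with hg
    have hg0 : g l₀ ≠ 0 := Finset.prod_ne_zero_iff.2 fun l' _ => hlam1 l'
    set Pr : Finset (Fin (e + 1)) := Finset.univ.filter fun l => ∃ c : L, x l = fun i => c * x l₀ i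
      with hPr
    have h5 : ∀ l ∈ Pr, a l * ev A l * g l = a l₀ * ev A l₀ * g l₀ := by
      intro l hl
      obtain ⟨c, hc⟩ := (Finset.mem_filter.1 hl).2
      have e1 : a l * c ^ (E + e) = a l₀ := hprop l₀ l c hc
      have e2 : ev A l = c ^ E * ev A l₀ := by
        simp only [hev, Finset.mul_sum]
        refine Finset.sum_congr rfl fun γ _ => ?_
        rw [hc, val_smul, γ.2]
        simp only [Algebra.smul_def]
        ring
      have e3 : g l = c ^ e * g l₀ := by
        have hce : c ^ e = ∏ _l' ∈ T, c := by rw [Finset.prod_const, hTc]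
        simp only [hg]
        rw [hce, ← Finset.prod_mul_distrib]
        refine Finset.prod_congr rfl fun l' _ => ?_
        rw [hc, Finset.mul_sum]
        exact Finset.sum_congr rfl fun j _ => by ring
      rw [e2, e3, ← e1, pow_add]
      ring
    have h6 : ∀ l, l ∉ Pr → a l * ev A l * g l = 0 := by
      intro l hl
      have h7 : ∀ c : L, x l ≠ fun i => c * x l₀ i := by
        intro c hc
        exact hl (Finset.mem_filter.2 ⟨Finset.mem_univ _, c, hc⟩)
      have h8 : l ∈ T := by
        rw [hT, Finset.mem_erase]
        refine ⟨?_, Finset.mem_univ _⟩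
        rintro rfl
        exact h7 1 (by funext i; rw [one_mul])
      have h9 : g l = 0 := Finset.prod_eq_zero h8 (hlam2 l h7)
      rw [h9, mul_zero]
    have h7 : ∑ l, a l * ev A l * g l = Pr.card * (a l₀ * ev A l₀ * g l₀) := by
      rw [← Finset.sum_filter_add_sum_filter_not Finset.univ (fun l => l ∈ Pr)]
      have e1 : ∑ l ∈ Finset.univ.filter (fun l => l ∉ Pr), a l * ev A l * g l = 0 :=
        Finset.sum_eq_zero fun l hl => h6 l (Finset.mem_filter.1 hl).2
      have e2 : Finset.univ.filter (fun l => l ∈ Pr) = Pr := by ext; simp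
      rw [e1, add_zero, e2, Finset.sum_congr rfl h5, Finset.sum_const, nsmul_eq_mul]
    rw [h7] at h4
    have h8 : (Pr.card : L) ≠ 0 := by
      rw [Nat.cast_ne_zero]
      refine Finset.card_ne_zero_of_mem (a := l₀) (Finset.mem_filter.2 ⟨Finset.mem_univ _, 1, ?_⟩)
      funext i
      rw [one_mul]
    have h9 : ev A l₀ = 0 := by
      by_contra hne
      exact mul_ne_zero h8 (mul_ne_zero (mul_ne_zero (ha l₀) hne) hg0) h4
    rw [← h9, hφ, Fintype.linearCombination_apply]
  -- dimensions
  have hd1 := LinearMap.finrank_range_add_finrank_ker Ψ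
  have hd2 := LinearMap.finrank_range_add_finrank_ker φ
  have hd3 : finrank K (LinearMap.ker Ψ) ≤ finrank K (LinearMap.ker φ) :=
    Submodule.finrank_mono hker
  have hd4 : finrank K (LinearMap.range Ψ) ≤ s * finrank K R := by
    have h1 := Submodule.finrank_le (LinearMap.range Ψ)
    rwa [finrank_pi_fintype, Finset.sum_const, Finset.card_univ, Fintype.card_fin,
      smul_eq_mul] at h1
  have hd5 : LinearMap.range φ = Submodule.span K (Set.range fun γ : Mon M E => val (x l₀) γ.1) :=
    Fintype.range_linearCombination K _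
  -- the Hilbert function
  have h2 : 1 + 1 ≤ finrank K (Submodule.span K (Set.range (x l₀))) := by
    by_contra hlt
    obtain ⟨i, hi⟩ : ∃ i, x l₀ i ≠ 0 := by
      by_contra h
      push Not at h
      exact hx l₀ (funext h)
    have hfd : FiniteDimensional K (Submodule.span K (Set.range (x l₀))) :=
      FiniteDimensional.span_of_finite K (Set.finite_range _)
    set v : Submodule.span K (Set.range (x l₀)) := ⟨x l₀ i, Submodule.subset_span ⟨i, rfl⟩⟩
    have hv : v ≠ 0 := fun h => hi (congrArg Subtype.val h)
    have hone : finrank K (Submodule.span K (Set.range (x l₀))) = 1 := by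
      have hpos : 0 < finrank K (Submodule.span K (Set.range (x l₀))) :=
        Module.finrank_pos_iff_exists_ne_zero.2 ⟨v, hv⟩
      omega
    have h3 := (finrank_eq_one_iff_of_nonzero' v hv).1 hone
    have h4 : ∀ j, ∃ b : K, x l₀ j = x l₀ i * algebraMap K L b := by
      intro j
      obtain ⟨b, hb⟩ := h3 ⟨x l₀ j, Submodule.subset_span ⟨j, rfl⟩⟩
      refine ⟨b, ?_⟩
      have := congrArg Subtype.val hb
      rw [mul_comm, ← Algebra.smul_def]
      exact this.symm
    choose y hy using h4
    exact hnc (x l₀ i) y (funext hy)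
  have h3 := hilb K L M 1 E (x l₀) h2
  rw [← hd5] at h3
  have h4 : s * finrank K R ≤ (e + 1) * finrank K R := Nat.mul_le_mul_right _ hsδ
  omega

end Pool.Agent.NH8.GD
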