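import Pool.Agent.NH8.GD.StcA

/-!
# Project GE, STC: there is no bad tuple for algebraically independent coefficients
-/

set_option autoImplicit false

namespace Pool.Agent.NH8.GD

open MvPolynomial Module Pool.Agent.NH29.GN Pool.Agent.NH29.GN.Stc

namespace Stc

theorem core {k K L : Type} [Field k] [Field K] [Field L] [Algebra k K] [Algebra K L]
    [Algebra k L] [IsScalarTower k K L] [IsAlgClosed K] [CharZero k] (hD : DerStm) (hA : AlgStm)
    (hR : RelStm) (hL : LinStm) (hK : RkStm) {M n q δ : ℕ}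
    {V : Set (MvPolynomial (Fin (M + 1)) k)} (hV : ∀ H ∈ V, ∃ e, H.IsHomogeneous e)
    {ℓ : Fin (n + 1) → MvPolynomial (Fin (M + 1)) k} (hℓ : ∀ j, (ℓ j).IsHomogeneous 1)
    (hN : NoZero V ℓ) {d : Fin q → ℕ} (hd : ∀ i, 1 ≤ d i) (hq : n * δ + 2 ≤ q)
    (hnum : ∀ b, δ * (q - 1) < (q - n * δ - 1) * (d b + 2 - δ)) {t : Idx M d → K}
    (ht : AlgebraicIndependent k t) {x : Fin δ → Fin (M + 1) → L}
    (hx : ∀ l, ∀ H ∈ V, eval₂ (algebraMap k L) (x l) H = 0)
    (hoff : ∀ l b, fv t (x l) b ≠ 0) (hx0 : ∀ l, x l ≠ 0)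
    (hncst : ¬ ∀ l, ∃ (c : L) (y : Fin (M + 1) → K), x l = fun i => c * algebraMap K L (y i))
    (hind : ∀ b₀, Ind K (qn t x b₀)) : False := by
  classical
  have hchK : CharZero K := charZero_of_injective_algebraMap (algebraMap k K).injective
  have hchL : CharZero L := charZero_of_injective_algebraMap (algebraMap k L).injective
  -- the quotients
  obtain ⟨b₀⟩ : Nonempty (Fin q) := ⟨⟨0, by omega⟩⟩
  have hpv : ∀ b, pv t x b ≠ 0 := fun b => Finset.prod_ne_zero_iff.2 fun l _ => hoff l b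
  obtain ⟨v, hv⟩ : ∃ v, v = qn t x b₀ := ⟨_, rfl⟩
  have hvb : ∀ b, v b = pv t x b ^ d b₀ / pv t x b₀ ^ d b := fun b => by rw [hv, qn]
  have hv0 : ∀ b, v b ≠ 0 := by
    intro b
    rw [hvb b]
    exact div_ne_zero (pow_ne_zero _ (hpv b)) (pow_ne_zero _ (hpv b₀))
  have hv1 : v b₀ = 1 := by
    rw [hvb b₀]
    exact div_self (pow_ne_zero _ (hpv b₀))
  obtain ⟨J, N, m, c, hJ, hN0, hc0, hmJ, hrel, hcJ, hc1⟩ :=
    exists_rel hR v hv0 (by rw [hv]; exact hind b₀)
  obtain ⟨W, hWr, hdW, hWD⟩ := exists_subspace hA hV hℓ hN hd (by omega) t x hx hoff hx0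
  obtain ⟨e, E', he1, he2, hEe⟩ := exists_D (L := L) hD ht
  have key : ∀ μ : Fin q → L, (∀ w ∈ W, ∑ b, μ b * w b = 0) → ∀ D : Derivation k L L,
      (d b₀ : L) * ∑ b, μ b * ∑ l, (fv t (x l) b)⁻¹ *
        ∑ β : Mon M (d b), D (algebraMap K L (t ⟨b, β⟩)) * val (x l) β.1 =
      ∑ b, μ b * ld D (v b) := by
    intro μ hμ D
    have h1 : ∑ b, μ b * (d b : L) = 0 := hμ _ hdW
    have h2 : ∑ b, μ b * ∑ l, Phi t (x l) (fun i => D (x l i)) b = 0 := by
      have h3 : ∀ b, μ b * ∑ l, Phi t (x l) (fun i => D (x l i)) b =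
          ∑ l, μ b * Phi t (x l) (fun i => D (x l i)) b := fun b => Finset.mul_sum _ _ _
      rw [Finset.sum_congr rfl fun b _ => h3 b, Finset.sum_comm]
      exact Finset.sum_eq_zero fun l _ => hμ _ (hWD l D)
    have h3 : ∀ b, ld D (pv t x b) = (∑ l, (fv t (x l) b)⁻¹ *
        ∑ β : Mon M (d b), D (algebraMap K L (t ⟨b, β⟩)) * val (x l) β.1) +
        ∑ l, Phi t (x l) (fun i => D (x l i)) b := by
      intro b
      rw [pv, ld_prod D _ _ fun l _ => hoff l b, ← Finset.sum_add_distrib]
      refine Finset.sum_congr rfl fun l _ => ?_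
      rw [ld, der_fv, div_eq_mul_inv, Phi_apply]
      ring
    have h4 : ∀ b, μ b * ld D (v b) = (d b₀ : L) * (μ b * ∑ l, (fv t (x l) b)⁻¹ *
        ∑ β : Mon M (d b), D (algebraMap K L (t ⟨b, β⟩)) * val (x l) β.1) +
        ((d b₀ : L) * (μ b * ∑ l, Phi t (x l) (fun i => D (x l i)) b) -
        ld D (pv t x b₀) * (μ b * d b)) := by
      intro b
      rw [hvb b, div_eq_mul_inv, ld_mul D (pow_ne_zero _ (hpv b))
            (inv_ne_zero (pow_ne_zero _ (hpv b₀))), ld_inv D (pow_ne_zero _ (hpv b₀)),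
            ld_pow D (hpv b), ld_pow D (hpv b₀)]
      rw [h3 b]
      ring
    rw [Finset.sum_congr rfl fun b _ => h4 b, Finset.sum_add_distrib, Finset.sum_sub_distrib,
      ← Finset.mul_sum, ← Finset.mul_sum, ← Finset.mul_sum, h1, h2]
    ring
  -- the combinations of the derivations
  let Δ : (Idx M d → K) → Derivation k L L := fun g => ∑ s, algebraMap K L (g s) • E' s
  have hΔK : ∀ g b, Δ g (algebraMap K L b) = algebraMap K L (∑ s, g s * e s b) := by
    intro g b
    rw [der_sum_apply, map_sum]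
    refine Finset.sum_congr rfl fun s _ => ?_
    rw [Derivation.smul_apply, hEe, smul_eq_mul, map_mul]
  have hΔt : ∀ g s, Δ g (algebraMap K L (t s)) = algebraMap K L (g s) := by
    intro g s
    rw [hΔK, Finset.sum_eq_single s]
    · rw [he1, mul_one]
    · intro s' _ hs'
      rw [he2 s' s (Ne.symm hs'), mul_zero]
    · intro h; exact absurd (Finset.mem_univ _) h
  -- the derivations over `K`
  have hpar : ∀ μ : Fin q → L, (∀ w ∈ W, ∑ b, μ b * w b = 0) → ∀ j ∈ J,
      ∑ b, μ b * ((m b j : L) / N b) = 0 := by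
    intro μ hμ j hj
    obtain ⟨D, hD1, hD2⟩ := hD k K L J (fun j : J => v j) hJ 0
      (fun i => if (i : Fin q) = j then v i else 0)
    have h2 := key μ hμ D
    have h3 : ∀ b, ld D (v b) = (m b j : L) / N b := by
      intro b
      have h4 := congrArg (ld D) (hrel b)
      rw [ld_pow D (hv0 b), ld_mul D ((map_ne_zero _).2 (hc0 b))
        (Finset.prod_ne_zero_iff.2 fun i _ => zpow_ne_zero _ (hv0 i)),
        ld_prod D _ _ fun i _ => zpow_ne_zero _ (hv0 i)] at h4
      have h5 : ld D (algebraMap K L (c b)) = 0 := by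
        rw [ld, hD1, Derivation.zero_apply, zero_div]
      have h6 : ∑ i, ld D (v i ^ m b i) = m b j := by
        rw [Finset.sum_eq_single j]
        · rw [ld_zpow D (hv0 j), ld, hD2 ⟨j, hj⟩, if_pos rfl]
          rw [div_self (hv0 j), mul_one]
        · intro i _ hi
          rw [ld_zpow D (hv0 i)]
          by_cases hiJ : i ∈ J
          · rw [ld, hD2 ⟨i, hiJ⟩, if_neg hi, zero_div, mul_zero]
          · rw [hmJ b i hiJ, Int.cast_zero, zero_mul]
        · intro h; exact absurd (Finset.mem_univ _) h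
      rw [h5, h6, zero_add] at h4
      have h7 : (N b : L) ≠ 0 := Nat.cast_ne_zero.2 (hN0 b).ne'
      rw [eq_div_iff h7, ← h4]
      ring
    rw [Finset.sum_congr rfl fun b _ => by rw [← h3 b]]
    rw [← h2]
    have h4 : ∀ b l, ∑ β : Mon M (d b), D (algebraMap K L (t ⟨b, β⟩)) * val (x l) β.1 = 0 := by
      intro b l
      refine Finset.sum_eq_zero fun β _ => ?_
      rw [hD1, Derivation.zero_apply, zero_mul]
    simp [h4]
  -- linear algebra
  have hlin := hL K L (Fin q → L) W q (fun b => LinearMap.proj b) (fun b => Mon M (d b))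
    (fun b β => ∑ l, (fv t (x l) b)⁻¹ * val (x l) β.1) ⊤
    {b : Fin q // c b ≠ 1}
    (fun l => ∑ s, (e s (c l.1)) • (LinearMap.proj s : (Idx M d → K) →ₗ[K] K))
    (fun _ => 1) (fun _ => one_ne_zero)
    (by
      intro μ hμ g _ hκ
      have h1 := key μ hμ (Δ g)
      have h2 : ∑ b, μ b * ld (Δ g) (v b) = 0 := by
        have h3 : ∀ b, ld (Δ g) (v b) = ∑ j ∈ J, (m b j : L) / N b * ld (Δ g) (v j) := by
          intro b
          have h4 := congrArg (ld (Δ g)) (hrel b)
          rw [ld_pow _ (hv0 b), ld_mul _ ((map_ne_zero _).2 (hc0 b))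
            (Finset.prod_ne_zero_iff.2 fun i _ => zpow_ne_zero _ (hv0 i)),
            ld_prod _ _ _ fun i _ => zpow_ne_zero _ (hv0 i)] at h4
          have h5 : ld (Δ g) (algebraMap K L (c b)) = 0 := by
            by_cases hcb : c b = 1
            · rw [hcb, map_one, ld_one]
            · have h6 := hκ ⟨b, hcb⟩
              rw [ld, hΔK]
              have h7 : ∑ s, g s * e s (c b) = 0 := by
                rw [← h6, LinearMap.sum_apply]
                refine Finset.sum_congr rfl fun s _ => ?_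
                rw [LinearMap.smul_apply, LinearMap.proj_apply, smul_eq_mul, mul_comm]
              rw [h7, map_zero, zero_div]
          have h6 : ∑ i, ld (Δ g) (v i ^ m b i) = ∑ j ∈ J, (m b j : L) * ld (Δ g) (v j) := by
            rw [← Finset.sum_subset (Finset.subset_univ J)]
            · exact Finset.sum_congr rfl fun i _ => by rw [ld_zpow _ (hv0 i)]
            · intro i _ hi
              rw [hmJ b i hi, zpow_zero, ld_one]
          rw [h5, h6, zero_add] at h4
          have h7 : (N b : L) ≠ 0 := Nat.cast_ne_zero.2 (hN0 b).ne'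
          have h8 : ld (Δ g) (v b) = (∑ j ∈ J, (m b j : L) * ld (Δ g) (v j)) / N b := by
            rw [eq_div_iff h7, ← h4]; ring
          rw [h8, Finset.sum_div]
          refine Finset.sum_congr rfl fun j _ => ?_
          ring
        have h9 : ∀ b, μ b * ld (Δ g) (v b) =
            ∑ j ∈ J, (μ b * ((m b j : L) / N b)) * ld (Δ g) (v j) := by
          intro b
          rw [h3 b, Finset.mul_sum]
          exact Finset.sum_congr rfl fun j _ => by ring
        rw [Finset.sum_congr rfl fun b _ => h9 b, Finset.sum_comm]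
        refine Finset.sum_eq_zero fun j hj => ?_
        rw [← Finset.sum_mul, hpar μ hμ j hj, zero_mul]
      rw [h2] at h1
      have h3 := (mul_eq_zero.1 h1).resolve_left (Nat.cast_ne_zero.2 (by have := hd b₀; omega))
      rw [← h3]
      refine Finset.sum_congr rfl fun b _ => ?_
      rw [one_mul]
      congr 1
      have h4 : ∀ l, (fv t (x l) b)⁻¹ * ∑ β : Mon M (d b), Δ g (algebraMap K L (t ⟨b, β⟩)) *
          val (x l) β.1 = ∑ β : Mon M (d b), algebraMap K L (g ⟨b, β⟩) *
          ((fv t (x l) b)⁻¹ * val (x l) β.1) := by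
        intro l
        rw [Finset.mul_sum]
        refine Finset.sum_congr rfl fun β _ => ?_
        rw [hΔt g ⟨b, β⟩]
        ring
      rw [Finset.sum_congr rfl fun l _ => h4 l, Finset.sum_comm]
      exact Finset.sum_congr rfl fun β _ => Finset.mul_sum _ _ _)
    0 (by rw [finrank_top]; rfl)
  obtain ⟨B, hB1, hB2⟩ := hlin
  -- the numerical contradiction
  have hT : Fintype.card {b : Fin q // c b ≠ 1} + 1 ≤ q := by
    have h1 : Fintype.card {b : Fin q // c b ≠ 1} = (Finset.univ.filter fun b => c b ≠ 1).card :=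
      Fintype.card_subtype _
    have h2 : (Finset.univ.filter fun b => c b ≠ 1) ⊆ Finset.univ.erase b₀ := by
      intro b hb
      rw [Finset.mem_filter] at hb
      rw [Finset.mem_erase]
      refine ⟨?_, Finset.mem_univ _⟩
      rintro rfl
      exact hb.2 (hc1 _ hv1)
    have h3 := Finset.card_le_card h2
    rw [Finset.card_erase_of_mem (Finset.mem_univ _), Finset.card_univ, Fintype.card_fin] at h3
    omega
  obtain ⟨l₀, hl₀⟩ : ∃ l, ∀ (c : L) (y : Fin (M + 1) → K),
      x l ≠ fun i => c * algebraMap K L (y i) := by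
    by_contra h
    push Not at h
    exact hncst h
  have h2 : ∀ b ∈ B, d b + 2 ≤ δ * finrank K (Submodule.span K (Set.range fun β : Mon M (d b) =>
      ∑ l, (fv t (x l) b)⁻¹ * val (x l) β.1)) + δ := by
    intro b _
    refine hK K L M δ (d b) (fun l => (fv t (x l) b)⁻¹) x (fun l => inv_ne_zero (hoff l b)) hx0
      ?_ l₀ hl₀
    intro l l' c' h
    have h3 : fv t (x l') b = c' ^ d b * fv t (x l) b := by
      rw [h, fv, fv, Finset.mul_sum]
      refine Finset.sum_congr rfl fun β _ => ?_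
      rw [val_smul, β.2]
      ring
    have h4 : c' ^ d b ≠ 0 := by
      intro h5
      rw [h5, zero_mul] at h3
      exact hoff l' b h3
    rw [h3, mul_inv]
    field_simp
  have hBc : q - n * δ - 1 ≤ B.card := by omega
  have hBn : B.Nonempty := by
    rw [← Finset.card_pos]
    omega
  obtain ⟨b₁, hb₁, hmin⟩ := Finset.exists_min_image B d hBn
  have h3 : ∑ b ∈ B, (d b + 2 - δ) ≤ δ * (q - 1) := by
    have h4 : ∑ b ∈ B, (d b + 2 - δ) ≤ ∑ b ∈ B, δ * finrank K (Submodule.span K
        (Set.range fun β : Mon M (d b) => ∑ l, (fv t (x l) b)⁻¹ * val (x l) β.1)) :=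
      Finset.sum_le_sum fun b hb => by have := h2 b hb; omega
    rw [← Finset.mul_sum] at h4
    exact h4.trans (Nat.mul_le_mul_left _ (by omega))
  have h4 : B.card * (d b₁ + 2 - δ) ≤ ∑ b ∈ B, (d b + 2 - δ) := by
    rw [← smul_eq_mul]
    exact Finset.card_nsmul_le_sum _ _ _ fun b hb => by have := hmin b hb; omega
  have h5 := Nat.mul_le_mul_right (d b₁ + 2 - δ) hBc
  have h6 := hnum b₁
  omega

end Stc

/-- STC -/
theorem stc (hD : DerStm) (hA : AlgStm) (hR : RelStm) (hL : LinStm) (hK : RkStm) : StcStm := by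
  intro k K L _ _ _ _ _ _ _ M n q δ V hV ℓ hℓ hN d hd hq hnum t ht x hb
  let _ : Algebra k L := ((algebraMap K L).comp (algebraMap k K)).toAlgebra
  have : IsScalarTower k K L := IsScalarTower.of_algebraMap_eq' rfl
  exact Stc.core hD hA hR hL hK hV hℓ hN hd hq hnum ht hb.onV hb.off hb.ne hb.noncst hb.ind

end Pool.Agent.NH8.GD
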