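import Pool.Agent.NH29.GN.Stm

/-!
# Project GE: points of bounded degree on Zariski-general complements

`V` projective of dimension at most `n`, `δ ≥ 1`, and `q ≥ n δ + 2` general forms of large degrees.
The points of degree `δ` are replaced by tuples of `δ` points (the conjugates), and the values of
the forms by their products over the tuple (the norms).
-/

set_option autoImplicit false

namespace Pool.Agent.NH8.GD

open MvPolynomial Module Filter Pool.Agent.NH29.GN
open scoped LinearAlgebra.Projectivization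

/-- the product of the values of the `b`-th form at the points of a tuple -/
noncomputable def pv {K L : Type} [Field K] [Field L] [Algebra K L] {M q δ : ℕ} {d : Fin q → ℕ}
    (t : Idx M d → K) (x : Fin δ → Fin (M + 1) → L) (b : Fin q) : L :=
  ∏ l, fv t (x l) b

/-- the quotients of these products -/
noncomputable def qn {K L : Type} [Field K] [Field L] [Algebra K L] {M q δ : ℕ} {d : Fin q → ℕ}
    (t : Idx M d → K) (x : Fin δ → Fin (M + 1) → L) (b₀ b : Fin q) : L :=
  pv t x b ^ d b₀ / pv t x b₀ ^ d b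

/-- a tuple of points of `V` off `F_b = 0`, not all constant, over an extension `L` of `K` at which
the quotients of the products of the values of the forms behave like units -/
structure Bad (k K L : Type) [Field k] [Field K] [Field L] [Algebra k K] [Algebra K L] {M q δ : ℕ}
    (V : Set (MvPolynomial (Fin (M + 1)) k)) {d : Fin q → ℕ}
    (t : Idx M d → K) (x : Fin δ → Fin (M + 1) → L) : Prop where
  onV : ∀ l, ∀ H ∈ V, eval₂ ((algebraMap K L).comp (algebraMap k K)) (x l) H = 0
  off : ∀ l b, fv t (x l) b ≠ 0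
  ne : ∀ l, x l ≠ 0
  noncst : ¬ ∀ l, ∃ (c : L) (y : Fin (M + 1) → K), x l = fun i => c * algebraMap K L (y i)
  ind : ∀ b₀, Ind K (qn t x b₀)

/-- the tuples of points of `V` off `F_b = 0` with the quotients of the norms in `Γ` -/
def Tup {K : Type} [Field K] {M q : ℕ} (V : Set (MvPolynomial (Fin (M + 1)) K)) {d : Fin q → ℕ}
    (t : Idx M d → K) (δ : ℕ) (Γ : Subgroup Kˣ) : Set (Fin δ → ℙ K (Fin (M + 1) → K)) :=
  {P | (∀ l, ∀ H ∈ V, aeval (P l).rep H = 0) ∧ (∀ l b, fv t (P l).rep b ≠ 0) ∧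
    ∀ b b', ∃ γ ∈ Γ, qn t (fun l => (P l).rep) b' b = (γ : K)}

/-- the points of degree at most `δ` over `ℚ(T)` of `V` which are integral over `ℤ[T]` with respect
to the divisor `∑ F_b = 0` -/
def Pts {K : Type} [Field K] {M q : ℕ} (V : Set (MvPolynomial (Fin (M + 1)) K)) {d : Fin q → ℕ}
    (t : Idx M d → K) (T : Finset K) (δ : ℕ) : Set (ℙ K (Fin (M + 1) → K)) :=
  {P | ∃ (E : IntermediateField (Subfield.closure (T : Set K)) K) (x : Fin (M + 1) → K)
      (hx : x ≠ 0), FiniteDimensional (Subfield.closure (T : Set K)) E ∧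
    finrank (Subfield.closure (T : Set K)) E ≤ δ ∧ P = Projectivization.mk K x hx ∧
    (∀ i, x i ∈ E) ∧ (∀ H ∈ V, aeval x H = 0) ∧ (∀ b, fv t x b ≠ 0) ∧
    ∀ α : Fin (M + 1) →₀ ℕ, α.degree = ∑ b, d b →
      IsIntegral (Subring.closure (T : Set K)) (val x α / ∏ b, fv t x b)}

/-- GE-RK: the rank of a sum of values. -/
def RkStm : Prop :=
  ∀ (K L : Type) [Field K] [Field L] [Algebra K L] [IsAlgClosed K] [CharZero K] (M δ D : ℕ)
    (a : Fin δ → L) (x : Fin δ → Fin (M + 1) → L), (∀ l, a l ≠ 0) → (∀ l, x l ≠ 0) →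
    (∀ l l' (c : L), x l' = (fun i => c * x l i) → a l' * c ^ D = a l) →
    ∀ l₀, (∀ (c : L) (y : Fin (M + 1) → K), x l₀ ≠ fun i => c * algebraMap K L (y i)) →
    D + 2 ≤ δ * finrank K (Submodule.span K
      (Set.range fun β : Mon M D => ∑ l, a l * val (x l) β.1)) + δ

/-- GE-STA: an infinite set of tuples with quotients in a finitely generated group has a limit
which is not constant -/
def StaStm : Prop :=
  ∀ (K : Type) [Field K] [IsAlgClosed K] [CharZero K], UE K →
    ∀ (M q δ : ℕ) (V : Set (MvPolynomial (Fin (M + 1)) K)),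
    (∀ H ∈ V, ∃ e, H.IsHomogeneous e) → ∀ (d : Fin q → ℕ)
    (t : Idx M d → K) (Γ : Subgroup Kˣ), Γ.FG → (Tup V t δ Γ).Infinite →
    ∃ x : Fin δ → Fin (M + 1) → UP K, Bad K K (UP K) V t x

/-- GE-STB: if the bad coefficients are Zariski dense, then some coefficients which are
algebraically independent are bad -/
def StbStm : Prop :=
  ∀ (k K L : Type) [Field k] [Field K] [Field L] [Algebra k K] [Algebra K L]
    [IsAlgClosed K] [CharZero k] (M q δ : ℕ)
    (V : Set (MvPolynomial (Fin (M + 1)) k)) (d : Fin q → ℕ),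
    (∀ Q : MvPolynomial (Idx M d) k, Q ≠ 0 → ∃ t : Idx M d → K, aeval t Q ≠ 0 ∧
      ∃ x : Fin δ → Fin (M + 1) → L, Bad k K L V t x) →
    ∃ (K' L' : Type) (_ : Field K') (_ : Field L') (_ : Algebra k K') (_ : Algebra K' L')
      (_ : IsAlgClosed K') (t : Idx M d → K') (x : Fin δ → Fin (M + 1) → L'),
      AlgebraicIndependent k t ∧ Bad k K' L' V t x

/-- STC: there is no bad tuple for algebraically independent coefficients -/
def StcStm : Prop :=
  ∀ (k K L : Type) [Field k] [Field K] [Field L] [Algebra k K] [Algebra K L]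
    [IsAlgClosed K] [CharZero k] (M n q δ : ℕ)
    (V : Set (MvPolynomial (Fin (M + 1)) k)), (∀ H ∈ V, ∃ e, H.IsHomogeneous e) →
    ∀ ℓ : Fin (n + 1) → MvPolynomial (Fin (M + 1)) k, (∀ j, (ℓ j).IsHomogeneous 1) →
    NoZero V ℓ → ∀ d : Fin q → ℕ, (∀ i, 1 ≤ d i) → n * δ + 2 ≤ q →
    (∀ b, δ * (q - 1) < (q - n * δ - 1) * (d b + 2 - δ)) →
    ∀ t : Idx M d → K, AlgebraicIndependent k t →
    ∀ x : Fin δ → Fin (M + 1) → L, ¬ Bad k K L V t x

/-- GE-NF: finiteness of the tuples gives finiteness of the integral points of degree at most `δ`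
over number fields -/
def NfStm : Prop :=
  ∀ (K : Type) [Field K] [IsAlgClosed K] [CharZero K] [Algebra.IsAlgebraic ℚ K] (M q δ : ℕ)
    (V : Set (MvPolynomial (Fin (M + 1)) K)), (∀ H ∈ V, ∃ e, H.IsHomogeneous e) →
    ∀ (d : Fin q → ℕ), 2 ≤ q → (∀ b, 1 ≤ d b) → ∀ (t : Idx M d → K),
    (∀ m, 1 ≤ m → m ≤ δ → ∀ Γ : Subgroup Kˣ, Γ.FG → (Tup V t m Γ).Finite) →
    ∀ T : Finset K, (Pts V t T δ).Finite

end Pool.Agent.NH8.GD
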