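import Pool.Agent.NH8.GD.Stm2
import Pool.Agent.NH8.GD.Stc
import Pool.Agent.NH29.GN.Fin2

/-!
# Project GE: assembly
-/

set_option autoImplicit false

namespace Pool.Agent.NH8.GD

open MvPolynomial Module Filter Pool.Agent.NH29.GN
open scoped LinearAlgebra.Projectivization

namespace Fn

theorem unif_one (hB : StbStm) (hC : StcStm) (hU : StuStm) {k K : Type} [Field k] [Field K]
    [Algebra k K] [IsAlgClosed K] [CharZero k] (hUEU : UEU K) {M n q δ : ℕ}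
    {V : Set (MvPolynomial (Fin (M + 1)) k)} (hV : ∀ H ∈ V, ∃ e, H.IsHomogeneous e)
    {ℓ : Fin (n + 1) → MvPolynomial (Fin (M + 1)) k} (hℓ : ∀ j, (ℓ j).IsHomogeneous 1)
    (hN : NoZero V ℓ) {d : Fin q → ℕ} (hd : ∀ i, 1 ≤ d i) (hq : n * δ + 2 ≤ q)
    (hnum : ∀ b, δ * (q - 1) < (q - n * δ - 1) * (d b + 2 - δ)) :
    ∃ Φ : MvPolynomial (Idx M d) k, Φ ≠ 0 ∧ ∀ Γ : Subgroup Kˣ, Γ.FG → ∃ N : ℕ,
      ∀ t : Idx M d → K, aeval t Φ ≠ 0 → ∀ P : Fin N → (Fin δ → ℙ K (Fin (M + 1) → K)),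
        Function.Injective P → ¬ ∀ j, P j ∈ TupK V t δ Γ := by
  by_contra h
  push Not at h
  let _ : Algebra k (UP K) := ((algebraMap K (UP K)).comp (algebraMap k K)).toAlgebra
  obtain ⟨K', L', _, _, _, _, _, t, x, ht, hx⟩ := hB k (UP K) (UP (UP K)) M q δ V d (by
    intro Q hQ
    obtain ⟨Γ, hΓ, h1⟩ := h Q hQ
    choose t h2 P h3 h4 using h1
    refine ⟨fun i => UP.mk fun N => t N i, ?_, ?_⟩
    · rw [Pool.Agent.NH29.GN.Fn.mk_aeval]
      exact STA.mk_ne_zero _ h2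
    · exact hU k K hUEU M q δ V hV d t Γ hΓ fun N => ⟨P N, h3 N, h4 N⟩)
  exact hC k K' L' M n q δ V hV ℓ hℓ hN d hd hq hnum t ht x hx

theorem num_mono {n q δ : ℕ} {d : Fin q → ℕ}
    (hnum : ∀ b, δ * (q - 1) < (q - n * δ - 1) * (d b + 2 - δ)) {m : ℕ} (hm : m ≤ δ) (b : Fin q) :
    m * (q - 1) < (q - n * m - 1) * (d b + 2 - m) := by
  have h1 := hnum b
  have h2 : n * m ≤ n * δ := Nat.mul_le_mul_left _ hm
  have h3 : m * (q - 1) ≤ δ * (q - 1) := Nat.mul_le_mul_right _ hm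
  have h4 : (q - n * δ - 1) * (d b + 2 - δ) ≤ (q - n * m - 1) * (d b + 2 - m) :=
    Nat.mul_le_mul (by omega) (by omega)
  omega

theorem unif (hB : StbStm) (hC : StcStm) (hU : StuStm) {k K : Type} [Field k] [Field K]
    [Algebra k K] [IsAlgClosed K] [CharZero k] (hUEU : UEU K) {M n q δ : ℕ}
    {V : Set (MvPolynomial (Fin (M + 1)) k)} (hV : ∀ H ∈ V, ∃ e, H.IsHomogeneous e)
    {ℓ : Fin (n + 1) → MvPolynomial (Fin (M + 1)) k} (hℓ : ∀ j, (ℓ j).IsHomogeneous 1)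
    (hN : NoZero V ℓ) {d : Fin q → ℕ} (hq : n * δ + 2 ≤ q)
    (hnum : ∀ b, δ * (q - 1) < (q - n * δ - 1) * (d b + 2 - δ)) :
    ∃ Φ : MvPolynomial (Idx M d) k, Φ ≠ 0 ∧ ∀ Γ : Subgroup Kˣ, Γ.FG → ∃ N : ℕ,
      ∀ t : Idx M d → K, aeval t Φ ≠ 0 → ∀ m, 1 ≤ m → m ≤ δ →
        (TupK V t m Γ).encard ≤ N := by
  classical
  have h1 : ∀ m : Fin (δ + 1), ∃ Φ : MvPolynomial (Idx M d) k, Φ ≠ 0 ∧
      (1 ≤ (m : ℕ) → ∀ Γ : Subgroup Kˣ, Γ.FG → ∃ N : ℕ,
      ∀ t : Idx M d → K, aeval t Φ ≠ 0 → ∀ P : Fin N → (Fin m → ℙ K (Fin (M + 1) → K)),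
        Function.Injective P → ¬ ∀ j, P j ∈ TupK V t m Γ) := by
    intro m
    by_cases hm : 1 ≤ (m : ℕ)
    · have hm' : (m : ℕ) ≤ δ := by have := m.2; omega
      have hd : ∀ i, 1 ≤ d i := by
        intro b
        by_contra h
        have h0 : d b = 0 := by omega
        have h2 := hnum b
        rw [h0] at h2
        rcases Nat.lt_or_ge δ 2 with h3 | h3
        · have h4 : δ = 1 := by omega
          subst h4
          omega
        · have h4 : 0 + 2 - δ = 0 := by omega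
          rw [h4, mul_zero] at h2
          exact absurd h2 (Nat.not_lt_zero _)
      have h2 : n * (m : ℕ) ≤ n * δ := Nat.mul_le_mul_left _ hm'
      obtain ⟨Φ, h1, h2⟩ := unif_one (K := K) (δ := (m : ℕ)) hB hC hU hUEU hV hℓ hN hd
        (by omega) (fun b => num_mono hnum hm' b)
      exact ⟨Φ, h1, fun _ => h2⟩
    · exact ⟨1, one_ne_zero, fun h => absurd h hm⟩
  choose Φ h1 h2 using h1
  refine ⟨∏ m, Φ m, Finset.prod_ne_zero_iff.2 fun m _ => h1 m, fun Γ hΓ => ?_⟩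
  have h3 : ∀ m : Fin (δ + 1), ∃ N : ℕ, 1 ≤ (m : ℕ) → ∀ t : Idx M d → K,
      aeval t (Φ m) ≠ 0 → (TupK V t m Γ).encard ≤ N := by
    intro m
    by_cases hm : 1 ≤ (m : ℕ)
    · obtain ⟨N, hN⟩ := h2 m hm Γ hΓ
      refine ⟨N, fun _ t ht => ?_⟩
      by_contra h4
      push Not at h4
      obtain ⟨S, hS1, hS2⟩ := Set.exists_subset_encard_eq h4.le
      have hSf : S.Finite := Set.finite_of_encard_eq_coe hS2
      have hcard : hSf.toFinset.card = N := by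
        rw [hSf.encard_eq_coe_toFinset_card] at hS2
        exact_mod_cast hS2
      let e : Fin N ≃ hSf.toFinset := (Fin.castOrderIso hcard.symm).toEquiv.trans
        hSf.toFinset.equivFin.symm
      exact hN t ht (fun j => (e j : Fin m → ℙ K (Fin (M + 1) → K)))
        (Subtype.val_injective.comp e.injective)
        (fun j => hS1 ((Set.Finite.mem_toFinset hSf).1 (e j).2))
    · exact ⟨0, fun h => absurd h hm⟩
  choose N hN3 using h3
  refine ⟨∑ m, N m, fun t ht m hm1 hm2 => ?_⟩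
  rw [map_prod, Finset.prod_ne_zero_iff] at ht
  refine (hN3 ⟨m, by omega⟩ hm1 t (ht _ (Finset.mem_univ _))).trans ?_
  exact_mod_cast Finset.single_le_sum (f := N) (fun _ _ => Nat.zero_le _)
    (Finset.mem_univ (⟨m, by omega⟩ : Fin (δ + 1)))

end Fn

end Pool.Agent.NH8.GD
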