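import Pool.Agent.NH8.GD.Stm
import Pool.Agent.NH29.GN.Fin
import Pool.Agent.NH29.GN.RUA

/-!
# Project GE, job NF: integral points of bounded degree over number fields from tuples
-/

set_option autoImplicit false

namespace Pool.Agent.NH8.GD

open MvPolynomial Module Filter Pool.Agent.NH29.GN IsDedekindDomain NumberField
open scoped LinearAlgebra.Projectivization

namespace Nf

/-! ### Integral elements -/

/-- the ring of the elements which are integral over the subring `S` -/
def IR {A : Type} [Field A] (S : Subring A) : Subring A := (integralClosure S A).toSubring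

theorem mem_IR {A : Type} [Field A] (S : Subring A) (z : A) : z ∈ IR S ↔ IsIntegral S z := Iff.rfl

theorem int_mono {A : Type} [Field A] {S O : Subring A} (h : S ≤ O) {z : A}
    (hz : IsIntegral S z) : IsIntegral O z := by
  obtain ⟨p, hp, hp2⟩ := hz
  refine ⟨p.map (Subring.inclusion h), hp.map _, ?_⟩
  rw [Polynomial.eval₂_map]
  exact hp2

theorem int_transport {A K : Type} [Field A] [Field K] [Algebra A K] {S : Subring A}
    {R : Subring K} (h : R ≤ S.map (algebraMap A K)) {z : K} (hz : IsIntegral R z) :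
    IsIntegral S z := by
  obtain ⟨p, hp, hp2⟩ := hz
  have hl : p.map (algebraMap R K) ∈ Polynomial.lifts (algebraMap S K) := by
    rw [Polynomial.lifts_iff_coeff_lifts]
    intro n
    rw [Polynomial.coeff_map]
    obtain ⟨a, ha, ha2⟩ := h (p.coeff n).2
    exact ⟨⟨a, ha⟩, ha2⟩
  obtain ⟨r, hr1, _, hr3⟩ := Polynomial.lifts_and_natDegree_eq_and_monic hl (hp.map _)
  refine ⟨r, hr3, ?_⟩
  rw [Polynomial.eval₂_eq_eval_map, hr1, ← Polynomial.eval₂_eq_eval_map]
  exact hp2

theorem uof_fg (A : Type) [Field A] [NumberField A] (T : Finset A) :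
    (RU.Uof (IR (Subring.closure (T : Set A)))).FG := by
  let S : Set (HeightOneSpectrum (𝓞 A)) := ⋃ t ∈ T, HeightOneSpectrum.Support (𝓞 A) t
  have hS : S.Finite := Set.Finite.biUnion T.finite_toSet
    fun t _ => HeightOneSpectrum.Support.finite (𝓞 A) t
  refine RU.fg_of_le ?_ (Pool.Agent.H39R3.Tor.sunit_fg A S hS)
  rintro u ⟨h1, h2⟩ v hv
  have hle : Subring.closure (T : Set A) ≤ (v.valuation A).integer := by
    rw [Subring.closure_le]
    intro t ht
    show v.valuation A t ≤ 1
    by_contra hc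
    apply hv
    rw [Set.mem_iUnion₂]
    exact ⟨t, ht, not_le.1 hc⟩
  have hint : ∀ z : A, IsIntegral (Subring.closure (T : Set A)) z → v.valuation A z ≤ 1 :=
    fun z hz => Valuation.Integers.mem_of_integral (Valuation.integer.integers (v.valuation A))
      (int_mono hle hz)
  have h3 : v.valuation A (u : A) ≤ 1 := hint _ h1
  have h4 : v.valuation A ((u⁻¹ : Aˣ) : A) ≤ 1 := hint _ h2
  have h5 : v.valuation A (u : A) * v.valuation A ((u⁻¹ : Aˣ) : A) = 1 := by
    rw [← map_mul, Units.mul_inv, map_one]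
  refine le_antisymm h3 ?_
  rw [← h5]
  exact mul_le_of_le_one_right' h4

/-! ### The compositum -/

theorem comp {K : Type} [Field K] {F : Subfield K} (E : IntermediateField F K)
    [FiniteDimensional F E] (A : Type) [Field A] [Algebra A K] [Algebra F A]
    [IsScalarTower F A K] :
    FiniteDimensional A (IntermediateField.adjoin A (E : Set K)) ∧
      finrank A (IntermediateField.adjoin A (E : Set K)) ≤ finrank F E := by
  have h1 : Module.rank A (IntermediateField.adjoin A (E : Set K)) ≤ Module.rank F E :=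
    IntermediateField.adjoin_rank_le_of_isAlgebraic_right A E
  have h2 : Module.rank F E < Cardinal.aleph0 := Module.rank_lt_aleph0 F E
  refine ⟨?_, ?_⟩
  · rw [FiniteDimensional, ← Module.rank_lt_aleph0_iff]
    exact h1.trans_lt h2
  · exact Cardinal.toNat_le_toNat h1 h2

theorem up {K : Type} [Field K] {F F1 : Subfield K} (h : F ≤ F1) (E : IntermediateField F K)
    (hE : FiniteDimensional F E) : ∃ E1 : IntermediateField F1 K, FiniteDimensional F1 E1 ∧
      finrank F1 E1 ≤ finrank F E ∧ ∀ z ∈ E, z ∈ E1 := by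
  let _ : Algebra F F1 := (Subfield.inclusion h).toAlgebra
  have _ : IsScalarTower F F1 K := IsScalarTower.of_algebraMap_eq fun _ => rfl
  obtain ⟨h1, h2⟩ := comp E F1
  exact ⟨_, h1, h2, fun z hz => IntermediateField.subset_adjoin _ _ hz⟩

theorem pts_mono {K : Type} [Field K] {M q : ℕ} (V : Set (MvPolynomial (Fin (M + 1)) K))
    {d : Fin q → ℕ} (t : Idx M d → K) {T T1 : Finset K} (h : T ⊆ T1) (δ : ℕ) :
    Pts V t T δ ⊆ Pts V t T1 δ := by
  rintro P ⟨E, x, hx, hfd, hr, hP, hxE, hV, hf, hint⟩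
  have h' : (T : Set K) ⊆ (T1 : Set K) := by exact_mod_cast h
  obtain ⟨E1, h1, h2, h3⟩ := up (Subfield.closure_mono h') E hfd
  refine ⟨E1, x, hx, h1, h2.trans hr, hP, fun i => h3 _ (hxE i), hV, hf, fun α hα => ?_⟩
  exact int_mono (Subring.closure_mono h') (hint α hα)

/-! ### Forms -/

theorem fv_smul {K L : Type} [Field K] [Field L] [Algebra K L] {M q : ℕ} {d : Fin q → ℕ}
    (t : Idx M d → K) (c : L) (x : Fin (M + 1) → L) (b : Fin q) :
    fv t (fun i => c * x i) b = c ^ d b * fv t x b := by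
  unfold fv
  rw [Finset.mul_sum]
  refine Finset.sum_congr rfl fun β _ => ?_
  rw [Stc.val_smul, β.2]
  ring

theorem fv_map {A K L : Type} [Field A] [Field K] [Field L] [Algebra A K] [Algebra A L]
    {M q : ℕ} {d : Fin q → ℕ} {t : Idx M d → K} {t' : Idx M d → A}
    (ht : ∀ s, algebraMap A K (t' s) = t s) (σ : L →ₐ[A] K) (x : Fin (M + 1) → L) (b : Fin q) :
    fv t (fun i => σ (x i)) b = σ (fv t' x b) := by
  unfold fv
  rw [map_sum]
  refine Finset.sum_congr rfl fun β _ => ?_
  rw [map_mul, AlgHom.commutes, ht]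
  congr 1
  unfold val
  rw [map_prod]
  exact Finset.prod_congr rfl fun i _ => (map_pow _ _ _).symm

/-- the ideal of the polynomials which vanish at a point -/
theorem van {K : Type} [Field K] {M : ℕ} {V V₀ : Set (MvPolynomial (Fin (M + 1)) K)}
    (h : V ⊆ Ideal.span V₀) {x : Fin (M + 1) → K} (hx : ∀ H ∈ V₀, aeval x H = 0) :
    ∀ H ∈ V, aeval x H = 0 := by
  intro H hH
  have h1 : Ideal.span V₀ ≤ RingHom.ker (aeval x : MvPolynomial (Fin (M + 1)) K →ₐ[K] K) := by
    rw [Ideal.span_le]
    intro G hG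
    exact hx G hG
  exact h1 (h hH)

theorem conj {A K L : Type} [Field A] [Field K] [Field L] [Algebra A K] [Algebra A L]
    {M : ℕ} {H : MvPolynomial (Fin (M + 1)) K}
    (hH : ∀ β, coeff β H ∈ Set.range (algebraMap A K)) (σ τ : L →ₐ[A] K) (x : Fin (M + 1) → L)
    (h : aeval (fun i => τ (x i)) H = 0) : aeval (fun i => σ (x i)) H = 0 := by
  obtain ⟨G, rfl⟩ : H ∈ Set.range (MvPolynomial.map (algebraMap A K)) := by
    rw [mem_range_map_iff_coeffs_subset]
    intro c hc
    obtain ⟨β, _, rfl⟩ := mem_coeffs_iff.1 hc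
    exact hH β
  have key : ∀ σ : L →ₐ[A] K, aeval (fun i => σ (x i)) (MvPolynomial.map (algebraMap A K) G) =
      σ (aeval x G) := by
    intro σ
    rw [aeval_map_algebraMap]
    exact (MvPolynomial.comp_aeval_apply (f := x) σ G).symm
  rw [key] at h ⊢
  have h2 : aeval x G = 0 := (map_eq_zero τ).1 h
  rw [h2, map_zero]

/-! ### The forms with the given coefficients -/

/-- the form with the coefficients `t` -/
noncomputable def Fo {K : Type} [Field K] {M q : ℕ} {d : Fin q → ℕ} (t : Idx M d → K) (i : Fin q) :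
    MvPolynomial (Fin (M + 1)) K :=
  ∑ β : Mon M (d i), monomial β.1 (t ⟨i, β⟩)

theorem Fo_hom {K : Type} [Field K] {M q : ℕ} {d : Fin q → ℕ} (t : Idx M d → K) (i : Fin q) :
    (Fo t i).IsHomogeneous (d i) :=
  IsHomogeneous.sum _ _ _ fun β _ => isHomogeneous_monomial _ β.2

theorem Fo_coeff {K : Type} [Field K] {M q : ℕ} {d : Fin q → ℕ} {t : Idx M d → K} {R : Subring K}
    (ht : ∀ s, t s ∈ R) (i : Fin q) (β : Fin (M + 1) →₀ ℕ) : coeff β (Fo t i) ∈ R := by
  rw [Fo, coeff_sum]
  refine Subring.sum_mem _ fun γ _ => ?_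
  rw [coeff_monomial]
  split_ifs
  · exact ht _
  · exact R.zero_mem

theorem Fo_eval {K : Type} [Field K] {M q : ℕ} {d : Fin q → ℕ} (t : Idx M d → K)
    (x : Fin (M + 1) → K) (i : Fin q) : eval x (Fo t i) = fv t x i := by
  rw [Fo, map_sum, fv]
  refine Finset.sum_congr rfl fun β _ => ?_
  rw [eval_monomial, Finsupp.prod_fintype _ _ (fun i => pow_zero _)]
  rfl

theorem norm_div {A E : Type} [Field A] [Field E] [Algebra A E] [FiniteDimensional A E] {a b : E}
    (hb : b ≠ 0) : Algebra.norm A (a / b) = Algebra.norm A a / Algebra.norm A b := by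
  rw [eq_div_iff (Algebra.norm_ne_zero_iff.2 hb), ← map_mul, div_mul_cancel₀ _ hb]

theorem core {K : Type} [Field K] [IsAlgClosed K] [CharZero K] {A : Type} [Field A]
    [NumberField A] [Algebra A K] {M q : ℕ} {V V₀ : Set (MvPolynomial (Fin (M + 1)) K)}
    (hV : ∀ H ∈ V, ∃ e, H.IsHomogeneous e) (hVV : V₀ ⊆ V) (hspan : V ⊆ Ideal.span V₀)
    (hco : ∀ H ∈ V₀, ∀ β, coeff β H ∈ Set.range (algebraMap A K)) {d : Fin q → ℕ}
    {t : Idx M d → K} {T : Finset K} {T' : Finset A}
    (hT : (T : Set K) = (algebraMap A K) '' (T' : Set A))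
    (ht : ∀ s, t s ∈ Subring.closure (T : Set K)) (E : IntermediateField A K)
    [FiniteDimensional A E] (x : Fin (M + 1) → K) (hx : x ≠ 0) (hxE : ∀ i, x i ∈ E)
    (hVx : ∀ H ∈ V, aeval x H = 0) (hf : ∀ b, fv t x b ≠ 0)
    (hint : ∀ α : Fin (M + 1) →₀ ℕ, α.degree = ∑ b, d b →
      IsIntegral (Subring.closure (T : Set K)) (val x α / ∏ b, fv t x b)) :
    ∃ R ∈ Tup V t (finrank A E) ((RU.Uof (IR (Subring.closure (T' : Set A)))).map
      (Units.map (algebraMap A K : A →* K))), ∃ l, R l = Projectivization.mk K x hx := by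
  classical
  have hmap : Subring.closure (T : Set K) = (Subring.closure (T' : Set A)).map (algebraMap A K) := by
    rw [RingHom.map_closure, hT]
  have ht1 : ∀ s, ∃ a : A, algebraMap A K a = t s := by
    intro s
    have h1 := ht s
    rw [hmap] at h1
    obtain ⟨a, _, ha⟩ := h1
    exact ⟨a, ha⟩
  choose t' ht' using ht1
  set m := finrank A E with hm
  let e : Fin m ≃ (E →ₐ[A] K) := (Fintype.equivFinOfCardEq (AlgHom.card A E K)).symm
  set x' : Fin (M + 1) → E := fun i => ⟨x i, hxE i⟩ with hx'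
  obtain ⟨i₀, hi₀⟩ : ∃ i, x i ≠ 0 := by
    by_contra hc
    push Not at hc
    exact hx (funext hc)
  have hy : ∀ l : Fin m, (fun i => e l (x' i)) ≠ 0 := by
    intro l hc
    have h1 := congrFun hc i₀
    have h2 : x' i₀ = 0 := (map_eq_zero (e l)).1 h1
    exact hi₀ (congrArg Subtype.val h2)
  -- the values of the forms
  set w : Fin q → E := fun b => fv t' x' b with hw
  have hw1 : ∀ b, fv t x b = (w b : K) := fun b => fv_map ht' E.val x' b
  have hw0 : ∀ b, w b ≠ 0 := by
    intro b hc
    apply hf b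
    rw [hw1, hc]
    rfl
  have hw2 : ∀ (l : Fin m) b, fv t (fun i => e l (x' i)) b = e l (w b) :=
    fun l b => fv_map ht' (e l) x' b
  -- the tuple
  set R : Fin m → ℙ K (Fin (M + 1) → K) := fun l => Projectivization.mk K _ (hy l) with hR
  have hrep : ∀ l, ∃ c : K, c ≠ 0 ∧ (R l).rep = fun i => c * e l (x' i) := by
    intro l
    obtain ⟨a, ha⟩ := Projectivization.exists_smul_eq_mk_rep K _ (hy l)
    refine ⟨a, a.ne_zero, ?_⟩
    rw [hR]
    simp only
    rw [← ha]
    rfl
  choose c hc0 hc using hrep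
  have hN : ∀ u : E, ∏ l, e l u = algebraMap A K (Algebra.norm A u) := by
    intro u
    rw [Algebra.norm_eq_prod_embeddings A K u]
    exact Equiv.prod_comp e (fun σ : E →ₐ[A] K => σ u)
  have hpv : ∀ b, pv t (fun l => (R l).rep) b =
      (∏ l, c l) ^ d b * algebraMap A K (Algebra.norm A (w b)) := by
    intro b
    unfold pv
    rw [← hN, ← Finset.prod_pow, ← Finset.prod_mul_distrib]
    refine Finset.prod_congr rfl fun l _ => ?_
    show fv t (R l).rep b = _
    rw [hc l, fv_smul, hw2]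
  have hC : (∏ l, c l) ≠ 0 := Finset.prod_ne_zero_iff.2 fun l _ => hc0 l
  have hqn : ∀ b b', qn t (fun l => (R l).rep) b' b =
      algebraMap A K (Algebra.norm A (w b ^ d b' / w b' ^ d b)) := by
    intro b b'
    rw [qn, hpv, hpv, mul_pow, mul_pow, ← pow_mul, ← pow_mul, mul_comm (d b') (d b),
      mul_div_mul_left _ _ (pow_ne_zero _ hC), norm_div (pow_ne_zero _ (hw0 b')), map_div₀,
      map_pow, map_pow, map_pow, map_pow]
  -- integrality
  have hu : ∀ b b', IsIntegral (Subring.closure (T' : Set A)) (Algebra.norm A (w b ^ d b' / w b' ^ d b)) := by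
    intro b b'
    apply Algebra.isIntegral_norm
    rw [← isIntegral_algebraMap_iff (algebraMap E K).injective]
    apply int_transport (R := Subring.closure (T : Set K)) hmap.le
    have h1 := Fn.quot_mem (x := x) (R := IR (Subring.closure (T : Set K))) (F := Fo t)
      (Fo_hom t) (fun i β => Fo_coeff (fun s =>
        (isIntegral_algebraMap (R := Subring.closure (T : Set K)) (x := ⟨t s, ht s⟩) :
          IsIntegral (Subring.closure (T : Set K)) (t s))) i β) Finset.univ
      (fun b _ => by rw [Fo_eval]; exact hf b)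
      (fun α hα => by
        simp only [Fo_eval]
        exact hint α hα) b b' (Finset.mem_univ _)
    rw [Fo_eval, Fo_eval, hw1, hw1] at h1
    exact h1
  refine ⟨R, ⟨?_, ?_, ?_⟩, e.symm E.val, ?_⟩
  · intro l H hH
    obtain ⟨eH, heH⟩ := hV H hH
    rw [hc l, aeval_def, Stc.eval₂_smul heH, ← aeval_def]
    have h1 : aeval (fun i => e l (x' i)) H = 0 :=
      van hspan (fun H hH => conj (hco H hH) (e l) E.val x' (hVx H (hVV hH))) H hH
    rw [h1, mul_zero]
  · intro l b
    rw [hc l, fv_smul, hw2]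
    exact mul_ne_zero (pow_ne_zero _ (hc0 l)) ((map_ne_zero (e l)).2 (hw0 b))
  · intro b b'
    have hne : Algebra.norm A (w b ^ d b' / w b' ^ d b) ≠ 0 := by
      rw [Algebra.norm_ne_zero_iff]
      exact div_ne_zero (pow_ne_zero _ (hw0 b)) (pow_ne_zero _ (hw0 b'))
    refine ⟨Units.map (algebraMap A K : A →* K) (Units.mk0 _ hne),
      ⟨Units.mk0 _ hne, ⟨hu b b', ?_⟩, rfl⟩, hqn b b'⟩
    have h1 := hu b' b
    have h2 : ((((Units.mk0 _ hne)⁻¹ : Aˣ)) : A) =
        Algebra.norm A (w b' ^ d b / w b ^ d b') := by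
      rw [Units.val_inv_eq_inv_val, Units.val_mk0, norm_div (pow_ne_zero _ (hw0 b')),
        norm_div (pow_ne_zero _ (hw0 b)), inv_div]
    rw [h2]
    exact h1
  · rw [hR]
    simp only [Equiv.apply_symm_apply]
    rfl

end Nf

open Nf in
/-- the integral points of degree at most `δ` are members of tuples, with a group which does not
depend on the coefficients of the forms -/
theorem nf2 (K : Type) [Field K] [IsAlgClosed K] [CharZero K] [Algebra.IsAlgebraic ℚ K]
    (M q δ : ℕ) (V : Set (MvPolynomial (Fin (M + 1)) K)) (hV : ∀ H ∈ V, ∃ e, H.IsHomogeneous e)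
    (d : Fin q → ℕ) (T : Finset K) :
    ∃ Γ : Subgroup Kˣ, Γ.FG ∧ ∀ t : Idx M d → K, (∀ s, t s ∈ Subring.closure (T : Set K)) →
      ∀ P ∈ Pts V t T δ, ∃ m, 1 ≤ m ∧ m ≤ δ ∧ ∃ R ∈ Tup V t m Γ, ∃ l, R l = P := by
  classical
  obtain ⟨V₀, hV₀, hspan⟩ := (Submodule.fg_span_iff_fg_span_finset_subset V).1
    (IsNoetherian.noetherian (Submodule.span (MvPolynomial (Fin (M + 1)) K) V))
  have hspan' : V ⊆ Ideal.span (V₀ : Set (MvPolynomial (Fin (M + 1)) K)) := by
    intro H hH
    have h1 : H ∈ Submodule.span (MvPolynomial (Fin (M + 1)) K) V := Submodule.subset_span hH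
    rw [hspan] at h1
    exact h1
  set S : Finset K := T ∪ V₀.biUnion fun H => H.support.image fun β => coeff β H with hS
  have hfd : FiniteDimensional ℚ (IntermediateField.adjoin ℚ (S : Set K)) :=
    IntermediateField.finiteDimensional_adjoin fun x _ =>
      (Algebra.IsAlgebraic.isAlgebraic x).isIntegral
  have hnf : NumberField (IntermediateField.adjoin ℚ (S : Set K)) := ⟨⟩
  have hSA : ∀ z ∈ S, z ∈ IntermediateField.adjoin ℚ (S : Set K) :=
    fun z hz => IntermediateField.subset_adjoin _ _ hz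
  generalize hA : IntermediateField.adjoin ℚ (S : Set K) = A at hfd hnf hSA
  obtain ⟨T', hT'⟩ : ∃ T' : Finset A, (T : Set K) = (algebraMap A K) '' (T' : Set A) := by
    refine ⟨T.preimage (algebraMap A K) (algebraMap A K).injective.injOn, ?_⟩
    ext z
    constructor
    · intro hz
      refine ⟨⟨z, hSA z (Finset.mem_union_left _ hz)⟩, ?_, rfl⟩
      rw [Finset.coe_preimage]
      exact hz
    · rintro ⟨w, hw, rfl⟩
      rw [Finset.coe_preimage] at hw
      exact hw
  refine ⟨(RU.Uof (IR (Subring.closure (T' : Set A)))).map (Units.map (algebraMap A K : A →* K)),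
    ?_, ?_⟩
  · obtain ⟨G, hG⟩ := uof_fg A T'
    refine ⟨G.image (Units.map (algebraMap A K : A →* K)), ?_⟩
    rw [Finset.coe_image, ← MonoidHom.map_closure, hG]
  · rintro t ht P ⟨E, x, hx, hEfd, hr, rfl, hxE, hVx, hf, hint⟩
    have hFA : ∀ z ∈ Subfield.closure (T : Set K), z ∈ A := by
      have h1 : Subfield.closure (T : Set K) ≤ A.toSubfield := by
        rw [Subfield.closure_le]
        intro z hz
        exact hSA z (Finset.mem_union_left _ hz)
      exact fun z hz => h1 hz
    let _ : Algebra (Subfield.closure (T : Set K)) A :=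
      ((algebraMap (Subfield.closure (T : Set K)) K).codRestrict A fun z => hFA z.1 z.2).toAlgebra
    have _ : IsScalarTower (Subfield.closure (T : Set K)) A K :=
      IsScalarTower.of_algebraMap_eq fun _ => rfl
    obtain ⟨h1, h2⟩ := comp E A
    obtain ⟨R, hR, l, hl⟩ := core (A := A) (V₀ := (V₀ : Set (MvPolynomial (Fin (M + 1)) K)))
      hV hV₀ hspan' (by
        intro H hH β
        by_cases hβ : coeff β H = 0
        · rw [hβ]; exact ⟨0, map_zero _⟩
        · refine ⟨⟨coeff β H, hSA _ (Finset.mem_union_right _ ?_)⟩, rfl⟩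
          rw [Finset.mem_biUnion]
          exact ⟨H, hH, Finset.mem_image.2 ⟨β, mem_support_iff.2 hβ, rfl⟩⟩) hT' ht
      (IntermediateField.adjoin A (E : Set K)) x hx
      (fun i => IntermediateField.subset_adjoin _ _ (hxE i)) hVx hf hint
    exact ⟨_, Module.finrank_pos, h2.trans hr, R, hR, l, hl⟩

open Nf in
theorem nf : NfStm := by
  classical
  intro K _ _ _ _ M q δ V hV d _ _ t hfin T
  set T1 : Finset K := T ∪ Finset.univ.image t with hT1
  refine Set.Finite.subset ?_ (pts_mono V t (T1 := T1) Finset.subset_union_left δ)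
  obtain ⟨Γ, hΓ, H⟩ := nf2 K M q δ V hV d T1
  have h1 := H t (fun s => Subring.subset_closure (by
    rw [hT1, Finset.coe_union]
    exact Or.inr (by simp)))
  have h2 : (⋃ m ∈ Set.Icc 1 δ, ⋃ R ∈ Tup V t m Γ, Set.range R).Finite := by
    refine Set.Finite.biUnion (Set.finite_Icc 1 δ) fun m hm => ?_
    exact Set.Finite.biUnion (hfin m hm.1 hm.2 Γ hΓ) fun R _ => Set.finite_range R
  refine h2.subset fun P hP => ?_
  obtain ⟨m, hm1, hm2, R, hR, l, hl⟩ := h1 P hP
  rw [Set.mem_iUnion₂]
  refine ⟨m, ⟨hm1, hm2⟩, ?_⟩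
  rw [Set.mem_iUnion₂]
  exact ⟨R, hR, l, hl⟩


end Pool.Agent.NH8.GD
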