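import Pool.Agent.NH8.GD.Nf
import Pool.Agent.NH29.GN.RU

/-!
# Project GE, NF over finitely generated rings which are integrally closed
(`core'` is helper42's `Nf.core` for arbitrary fields of characteristic `0`)
-/

set_option autoImplicit false

namespace Pool.Agent.NH8.GD

open MvPolynomial Module Pool.Agent.NH29.GN
open scoped LinearAlgebra.Projectivization

namespace Nf

theorem core' {K : Type} [Field K] [IsAlgClosed K] [CharZero K] {A : Type} [Field A]
    [CharZero A] [Algebra A K] {M q : ℕ} {V V₀ : Set (MvPolynomial (Fin (M + 1)) K)}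
    (hV : ∀ H ∈ V, ∃ e, H.IsHomogeneous e) (hVV : V₀ ⊆ V) (hspan : V ⊆ Ideal.span V₀)
    (hco : ∀ H ∈ V₀, ∀ β, coeff β H ∈ Set.range (algebraMap A K)) {d : Fin q → ℕ}
    {t : Idx M d → K} {T : Finset K} {T' : Finset A}
    (hT : (T : Set K) = (algebraMap A K) '' (T' : Set A))
    (ht : ∀ s, t s ∈ Subring.closure (T : Set K)) (E : IntermediateField A K)
    [FiniteDimensional A E] (x : Fin (M + 1) → K) (hx : x ≠ 0) (hxE : ∀ i, x i ∈ E)
    (hVx : ∀ H ∈ V, aeval x H = 0) (hf : ∀ b, fv t x b ≠ 0)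
    (hint : ∀ α : Fin (M + 1) →₀ ℕ, α.degree = ∑ b, d b →
      IsIntegral (Subring.closure (T : Set K)) (val x α / ∏ b, fv t x b)) :
    ∃ R ∈ Tup V t (finrank A E) ((RU.Uof (IR (Subring.closure (T' : Set A)))).map
      (Units.map (algebraMap A K : A →* K))), ∃ l, R l = Projectivization.mk K x hx := by
  classical
  have hmap : Subring.closure (T : Set K) = (Subring.closure (T' : Set A)).map (algebraMap A K) := by
    rw [RingHom.map_closure, hT]
  have ht1 : ∀ s, ∃ a : A, algebraMap A K a = t s := by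
    intro s
    have h1 := ht s
    rw [hmap] at h1
    obtain ⟨a, _, ha⟩ := h1
    exact ⟨a, ha⟩
  choose t' ht' using ht1
  set m := finrank A E with hm
  let e : Fin m ≃ (E →ₐ[A] K) := (Fintype.equivFinOfCardEq (AlgHom.card A E K)).symm
  set x' : Fin (M + 1) → E := fun i => ⟨x i, hxE i⟩ with hx'
  obtain ⟨i₀, hi₀⟩ : ∃ i, x i ≠ 0 := by
    by_contra hc
    push Not at hc
    exact hx (funext hc)
  have hy : ∀ l : Fin m, (fun i => e l (x' i)) ≠ 0 := by
    intro l hc
    have h1 := congrFun hc i₀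
    have h2 : x' i₀ = 0 := (map_eq_zero (e l)).1 h1
    exact hi₀ (congrArg Subtype.val h2)
  -- the values of the forms
  set w : Fin q → E := fun b => fv t' x' b with hw
  have hw1 : ∀ b, fv t x b = (w b : K) := fun b => fv_map ht' E.val x' b
  have hw0 : ∀ b, w b ≠ 0 := by
    intro b hc
    apply hf b
    rw [hw1, hc]
    rfl
  have hw2 : ∀ (l : Fin m) b, fv t (fun i => e l (x' i)) b = e l (w b) :=
    fun l b => fv_map ht' (e l) x' b
  -- the tuple
  set R : Fin m → ℙ K (Fin (M + 1) → K) := fun l => Projectivization.mk K _ (hy l) with hR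
  have hrep : ∀ l, ∃ c : K, c ≠ 0 ∧ (R l).rep = fun i => c * e l (x' i) := by
    intro l
    obtain ⟨a, ha⟩ := Projectivization.exists_smul_eq_mk_rep K _ (hy l)
    refine ⟨a, a.ne_zero, ?_⟩
    rw [hR]
    simp only
    rw [← ha]
    rfl
  choose c hc0 hc using hrep
  have hN : ∀ u : E, ∏ l, e l u = algebraMap A K (Algebra.norm A u) := by
    intro u
    rw [Algebra.norm_eq_prod_embeddings A K u]
    exact Equiv.prod_comp e (fun σ : E →ₐ[A] K => σ u)
  have hpv : ∀ b, pv t (fun l => (R l).rep) b =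
      (∏ l, c l) ^ d b * algebraMap A K (Algebra.norm A (w b)) := by
    intro b
    unfold pv
    rw [← hN, ← Finset.prod_pow, ← Finset.prod_mul_distrib]
    refine Finset.prod_congr rfl fun l _ => ?_
    show fv t (R l).rep b = _
    rw [hc l, fv_smul, hw2]
  have hC : (∏ l, c l) ≠ 0 := Finset.prod_ne_zero_iff.2 fun l _ => hc0 l
  have hqn : ∀ b b', qn t (fun l => (R l).rep) b' b =
      algebraMap A K (Algebra.norm A (w b ^ d b' / w b' ^ d b)) := by
    intro b b'
    rw [qn, hpv, hpv, mul_pow, mul_pow, ← pow_mul, ← pow_mul, mul_comm (d b') (d b),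
      mul_div_mul_left _ _ (pow_ne_zero _ hC), norm_div (pow_ne_zero _ (hw0 b')), map_div₀,
      map_pow, map_pow, map_pow, map_pow]
  -- integrality
  have hu : ∀ b b', IsIntegral (Subring.closure (T' : Set A)) (Algebra.norm A (w b ^ d b' / w b' ^ d b)) := by
    intro b b'
    apply Algebra.isIntegral_norm
    rw [← isIntegral_algebraMap_iff (algebraMap E K).injective]
    apply int_transport (R := Subring.closure (T : Set K)) hmap.le
    have h1 := Fn.quot_mem (x := x) (R := IR (Subring.closure (T : Set K))) (F := Fo t)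
      (Fo_hom t) (fun i β => Fo_coeff (fun s =>
        (isIntegral_algebraMap (R := Subring.closure (T : Set K)) (x := ⟨t s, ht s⟩) :
          IsIntegral (Subring.closure (T : Set K)) (t s))) i β) Finset.univ
      (fun b _ => by rw [Fo_eval]; exact hf b)
      (fun α hα => by
        simp only [Fo_eval]
        exact hint α hα) b b' (Finset.mem_univ _)
    rw [Fo_eval, Fo_eval, hw1, hw1] at h1
    exact h1
  refine ⟨R, ⟨?_, ?_, ?_⟩, e.symm E.val, ?_⟩
  · intro l H hH
    obtain ⟨eH, heH⟩ := hV H hH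
    rw [hc l, aeval_def, Stc.eval₂_smul heH, ← aeval_def]
    have h1 : aeval (fun i => e l (x' i)) H = 0 :=
      van hspan (fun H hH => conj (hco H hH) (e l) E.val x' (hVx H (hVV hH))) H hH
    rw [h1, mul_zero]
  · intro l b
    rw [hc l, fv_smul, hw2]
    exact mul_ne_zero (pow_ne_zero _ (hc0 l)) ((map_ne_zero (e l)).2 (hw0 b))
  · intro b b'
    have hne : Algebra.norm A (w b ^ d b' / w b' ^ d b) ≠ 0 := by
      rw [Algebra.norm_ne_zero_iff]
      exact div_ne_zero (pow_ne_zero _ (hw0 b)) (pow_ne_zero _ (hw0 b'))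
    refine ⟨Units.map (algebraMap A K : A →* K) (Units.mk0 _ hne),
      ⟨Units.mk0 _ hne, ⟨hu b b', ?_⟩, rfl⟩, hqn b b'⟩
    have h1 := hu b' b
    have h2 : ((((Units.mk0 _ hne)⁻¹ : Aˣ)) : A) =
        Algebra.norm A (w b' ^ d b / w b ^ d b') := by
      rw [Units.val_inv_eq_inv_val, Units.val_mk0, norm_div (pow_ne_zero _ (hw0 b')),
        norm_div (pow_ne_zero _ (hw0 b)), inv_div]
    rw [h2]
    exact h1
  · rw [hR]
    simp only [Equiv.apply_symm_apply]
    rfl


/-- integral elements of the field of fractions -/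
theorem mem_of_closed {K : Type} [Field K] {R : Subring K} (hR : IsIntegrallyClosed R) {y z : K}
    (hy : y ∈ R) (hz : z ∈ R) (h : IsIntegral R (y / z)) : y / z ∈ R := by
  by_cases hz0 : z = 0
  · rw [hz0, div_zero]
    exact R.zero_mem
  let φ : FractionRing R →ₐ[R] K := IsFractionRing.liftAlgHom (g := Algebra.ofId R K)
    (fun a b hab => Subtype.ext hab)
  have hφ : Function.Injective φ := φ.toRingHom.injective
  have hz1 : (⟨z, hz⟩ : R) ≠ 0 := fun h => hz0 (congrArg Subtype.val h)
  set w : FractionRing R := algebraMap R (FractionRing R) ⟨y, hy⟩ /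
    algebraMap R (FractionRing R) ⟨z, hz⟩ with hw
  have h1 : φ w = y / z := by
    rw [hw, map_div₀, AlgHom.commutes, AlgHom.commutes]
    rfl
  rw [← h1, isIntegral_algHom_iff φ hφ] at h
  obtain ⟨a, ha⟩ := IsIntegrallyClosed.isIntegral_iff.1 h
  rw [← h1, ← ha, AlgHom.commutes]
  exact a.2

theorem exists_T' {K : Type} [Field K] (T : Finset K) :
    ∃ T' : Finset (Subfield.closure (T : Set K)),
      (T : Set K) = (algebraMap (Subfield.closure (T : Set K)) K) ''
        (T' : Set (Subfield.closure (T : Set K))) := by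
  classical
  refine ⟨T.attach.image fun z => ⟨z.1, Subfield.subset_closure z.2⟩, ?_⟩
  ext z
  rw [Finset.coe_image, Set.image_image]
  constructor
  · intro hz
    exact ⟨⟨z, hz⟩, Finset.mem_coe.2 (Finset.mem_attach _ _), rfl⟩
  · rintro ⟨w, _, rfl⟩
    exact w.2

theorem int_map {A K : Type} [Field A] [Field K] (f : A →+* K) (S : Subring A) {z : A}
    (hz : IsIntegral S z) : IsIntegral (S.map f) (f z) := by
  obtain ⟨p, hp, hp2⟩ := hz
  let g : S →+* S.map f :=
    (f.comp S.subtype).codRestrict (S.map f) (fun a => ⟨a.1, a.2, rfl⟩)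
  refine ⟨p.map g, hp.map g, ?_⟩
  rw [Polynomial.eval₂_map]
  have h2 := congrArg f hp2
  rw [map_zero, Polynomial.hom_eval₂] at h2
  exact h2

theorem key_int' {A K : Type} [Field A] [Field K] (f : A →+* K) {T : Set K}
    (hT : IsIntegrallyClosed (Subring.closure T)) {T' : Set A} (hT' : T = f '' T')
    (hA : ∀ z : A, f z ∈ Subfield.closure T) (z : A)
    (hz : IsIntegral (Subring.closure T') z) : f z ∈ Subring.closure T := by
  have hmap : (Subring.closure T').map f = Subring.closure T := by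
    rw [RingHom.map_closure, ← hT']
  have h1 := int_map f _ hz
  rw [hmap] at h1
  obtain ⟨y, hy, w, hw, hyw⟩ := Subfield.mem_closure_iff.1 (hA z)
  rw [← hyw] at h1 ⊢
  exact mem_of_closed hT hy hw h1

theorem key_int {K : Type} [Field K] {T : Finset K}
    (hT : IsIntegrallyClosed (Subring.closure (T : Set K)))
    {T' : Finset (Subfield.closure (T : Set K))}
    (hT' : (T : Set K) = (algebraMap (Subfield.closure (T : Set K)) K) ''
      (T' : Set (Subfield.closure (T : Set K)))) (z : Subfield.closure (T : Set K))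
    (hz : IsIntegral (Subring.closure (T' : Set (Subfield.closure (T : Set K)))) z) :
    (algebraMap (Subfield.closure (T : Set K)) K z) ∈ Subring.closure (T : Set K) :=
  key_int' (algebraMap (Subfield.closure (T : Set K)) K) hT hT' (fun z => z.2) z hz

end Nf

open Nf in
/-- the integral points of degree at most `δ` over a finitely generated ring which is integrally
closed -/
theorem nf3 (K : Type) [Field K] [IsAlgClosed K] [CharZero K] (M q δ : ℕ)
    (V : Set (MvPolynomial (Fin (M + 1)) K)) (hV : ∀ H ∈ V, ∃ e, H.IsHomogeneous e)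
    (d : Fin q → ℕ) (T : Finset K) (hT : IsIntegrallyClosed (Subring.closure (T : Set K)))
    (hco : ∀ H ∈ V, ∀ β, coeff β H ∈ Subfield.closure (T : Set K)) :
    ∃ Γ : Subgroup Kˣ, Γ.FG ∧ ∀ t : Idx M d → K, (∀ s, t s ∈ Subring.closure (T : Set K)) →
      ∀ P ∈ Pts V t T δ, ∃ m, 1 ≤ m ∧ m ≤ δ ∧ ∃ R ∈ Tup V t m Γ, ∃ l, R l = P := by
  classical
  obtain ⟨Γ, hΓ, hΓT⟩ := ru K T
  refine ⟨Γ, hΓ, ?_⟩
  obtain ⟨T', hT'⟩ := exists_T' T
  rintro t ht P ⟨E, x, hx, hEfd, hr, rfl, hxE, hVx, hf, hint⟩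
  obtain ⟨R, hR, l, hl⟩ := core' (A := Subfield.closure (T : Set K)) (V₀ := V) hV subset_rfl
    Ideal.subset_span (fun H hH β => ⟨⟨coeff β H, hco H hH β⟩, rfl⟩) hT' ht E x hx hxE hVx hf hint
  refine ⟨_, Module.finrank_pos, hr, R, ⟨hR.1, hR.2.1, fun b b' => ?_⟩, l, hl⟩
  obtain ⟨γ, ⟨u, ⟨hu1, hu2⟩, rfl⟩, hγ⟩ := hR.2.2 b b'
  refine ⟨_, ?_, hγ⟩
  refine hΓT _ (key_int hT hT' _ hu1) ?_
  have h3 := key_int hT hT' _ hu2
  have h4 : (((Units.map (algebraMap (Subfield.closure (T : Set K)) K :
      Subfield.closure (T : Set K) →* K) u)⁻¹ : Kˣ) : K) =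
      (((u⁻¹ : (Subfield.closure (T : Set K))ˣ) : Subfield.closure (T : Set K)) : K) := by
    rw [← map_inv]
    rfl
  rw [h4]
  exact h3

end Pool.Agent.NH8.GD
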