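import Pool.Agent.NH8.GD.Stm
import Pool.Agent.NH29.GN.Sta

/-!
# GE-STA: infinitely many tuples give a limit
-/

set_option autoImplicit false

namespace Pool.Agent.NH8.GD

open MvPolynomial Module Filter Pool.Agent.NH29.GN
open scoped LinearAlgebra.Projectivization

namespace STA

open Pool.Agent.NH29.GN.STA

lemma mk_pv {K : Type} [Field K] {M q δ : ℕ} {d : Fin q → ℕ} (t : Idx M d → K)
    (p : Fin δ → ℕ → Fin (M + 1) → K) (b : Fin q) :
    pv t (fun l => lim (p l)) b = mkH K (fun s => pv t (fun l => p l s) b) := by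
  have h : (fun s => pv t (fun l => p l s) b) = ∏ l, (fun s => fv t (p l s) b) := by
    funext s
    rw [Finset.prod_apply]
    rfl
  rw [h, map_prod]
  unfold pv
  refine Finset.prod_congr rfl fun l _ => ?_
  rw [mk_fv]

end STA

open STA Pool.Agent.NH29.GN.STA in
theorem sta : StaStm := by
  intro K _ _ _ hUE M q δ V _ d t Γ hΓ hinf
  obtain ⟨P, hPi⟩ : ∃ P : ℕ → (Fin δ → ℙ K (Fin (M + 1) → K)), Function.Injective P ∧
      ∀ s, P s ∈ Tup V t δ Γ := by
    have := hinf.to_subtype
    let e := Infinite.natEmbedding (Tup V t δ Γ)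
    exact ⟨fun s => (e s : Fin δ → ℙ K (Fin (M + 1) → K)),
      Subtype.val_injective.comp e.injective, fun s => (e s).2⟩
  obtain ⟨hP, hPZ⟩ := hPi
  have hPne : ∀ l s, (P s l).rep ≠ 0 := fun l s => (P s l).rep_nonzero
  have hpv0 : ∀ s b, pv t (fun l => (P s l).rep) b ≠ 0 := fun s b =>
    Finset.prod_ne_zero_iff.2 fun l _ => (hPZ s).2.1 l b
  refine ⟨fun l => lim (fun s => (P s l).rep), ?_, ?_, ?_, ?_, ?_⟩
  · intro l H hH
    rw [mk_eval]
    have : (fun s => aeval (P s l).rep H) = (0 : ℕ → K) := by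
      funext s; exact (hPZ s).1 l H hH
    rw [this, map_zero]
  · intro l b
    rw [mk_fv]
    exact mk_ne_zero _ (fun s => (hPZ s).2.1 l b)
  · intro l h0
    have h1 : ∀ i, ∀ᶠ s in ((hyperfilter ℕ : Ultrafilter ℕ) : Filter ℕ), (P s l).rep i = 0 := by
      intro i
      have := congrFun h0 i
      exact (mk_eq_zero _).mp this
    obtain ⟨s, hs⟩ := (Filter.eventually_all.mpr h1).exists
    exact hPne l s (funext hs)
  · intro hall
    choose c y hxy using hall
    choose f hf using fun l => mk_surj (c l)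
    have h1 : ∀ l i, ∀ᶠ s in ((hyperfilter ℕ : Ultrafilter ℕ) : Filter ℕ),
        (P s l).rep i = f l s * y l i := by
      intro l i
      have := congrFun (hxy l) i
      rw [← hf l] at this
      exact (mk_eq _ _).mp this
    have h2 := Filter.eventually_all.mpr fun l => Filter.eventually_all.mpr (h1 l)
    have h3 : {s | ∀ l i, (P s l).rep i = f l s * y l i}.Infinite := by
      intro hfin
      exact (notMem_hyperfilter_of_finite hfin) h2
    obtain ⟨s₁, hs₁, s₂, hs₂, hne⟩ := h3.nontrivial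
    apply hne
    apply hP
    funext l
    have hf1 : f l s₁ ≠ 0 := by
      intro h
      apply hPne l s₁
      funext i
      rw [hs₁ l i, h, zero_mul]
      rfl
    rw [← (P s₁ l).mk_rep, ← (P s₂ l).mk_rep, eq_comm, Projectivization.mk_eq_mk_iff']
    refine ⟨f l s₂ / f l s₁, ?_⟩
    funext i
    rw [Pi.smul_apply, hs₁ l i, hs₂ l i, smul_eq_mul]
    field_simp
  · intro b₀
    have hw : ∀ b s, ∃ γ : Kˣ, γ ∈ Γ ∧ (γ : K) = qn t (fun l => (P s l).rep) b₀ b := by
      intro b s
      obtain ⟨γ, hγ, h⟩ := (hPZ s).2.2 b b₀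
      exact ⟨γ, hγ, h.symm⟩
    choose w hwΓ hwv using hw
    have hquo : ∀ b, qn t (fun l => lim (fun s => (P s l).rep)) b₀ b =
        mkH K (fun s => (w b s : K)) := by
      intro b
      have e : (fun s => (w b s : K)) = fun s =>
          (fun s => pv t (fun l => (P s l).rep) b ^ d b₀) s /
            (fun s => pv t (fun l => (P s l).rep) b₀ ^ d b) s := by
        funext s; rw [hwv]; rfl
      rw [e, ← mk_div _ _ (fun s => pow_ne_zero _ (hpv0 s b₀))]
      unfold qn
      rw [mk_pv t (fun l s => (P s l).rep) b, mk_pv t (fun l s => (P s l).rep) b₀, ← map_pow,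
        ← map_pow]
      rfl
    intro S c hsum hnp m hm
    simp only [hquo, mk_prod_zpow] at hsum hnp
    have key := hUE Γ hΓ (hyperfilter ℕ) S (fun m s => ∏ b, w b s ^ (m.1 b)) ?_ ?_
      (fun m => c m.1) ?_ ⟨m, hm⟩
    · exact key
    · intro m s
      exact Subgroup.prod_mem _ (fun b _ => Subgroup.zpow_mem _ (hwΓ b s) _)
    · intro m m' hmm a hev
      refine hnp m.1 m.2 m'.1 m'.2 (fun h => hmm (Subtype.ext h)) a ?_
      rw [algMap, ← map_mul]
      exact (mk_eq _ _).mpr hev
    · have h1 : ∑ m ∈ S, algebraMap K (UP K) (c m) *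
          mkH K (fun s => ((∏ b, w b s ^ m b : Kˣ) : K)) =
          mkH K (∑ m ∈ S, (fun _ => c m) * fun s => ((∏ b, w b s ^ m b : Kˣ) : K)) := by
        rw [map_sum]
        exact Finset.sum_congr rfl (fun m _ => by rw [map_mul, algMap])
      rw [h1, mk_eq_zero] at hsum
      filter_upwards [hsum] with s hs
      rw [Finset.sum_apply] at hs
      rw [← hs, ← Finset.sum_coe_sort S]
      rfl

end Pool.Agent.NH8.GD
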