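import Pool.Agent.NH8.GD.Stm
import Pool.Agent.NH29.GN.Stc

/-!
# Project GE, STC, part A: the subspace
-/

set_option autoImplicit false

namespace Pool.Agent.NH8.GD.Stc

open MvPolynomial Module Pool.Agent.NH29.GN Pool.Agent.NH29.GN.Stc

theorem dim_sup {L E ι : Type} [Field L] [AddCommGroup E] [Module L E] [FiniteDimensional L E]
    (e : E) (he : e ≠ 0) (n : ℕ) (s : Finset ι) (U : ι → Submodule L E)
    (hU : ∀ i, finrank L (U i) ≤ n + 1) (h : ∀ i, e ∈ U i) :
    finrank L ((Submodule.span L {e}) ⊔ s.sup U : Submodule L E) ≤ n * s.card + 1 := by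
  classical
  induction s using Finset.induction_on with
  | empty =>
    rw [Finset.sup_empty, sup_bot_eq, finrank_span_singleton he, Finset.card_empty]
    omega
  | insert i s hi ih =>
    rw [Finset.sup_insert, Finset.card_insert_of_notMem hi, sup_left_comm]
    have h2 := Submodule.finrank_sup_add_finrank_inf_eq (U i) ((Submodule.span L {e}) ⊔ s.sup U)
    have h3 : 1 ≤ finrank L (U i ⊓ ((Submodule.span L {e}) ⊔ s.sup U) : Submodule L E) := by
      have h4 : Submodule.span L {e} ≤ U i ⊓ ((Submodule.span L {e}) ⊔ s.sup U) :=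
        le_inf ((Submodule.span_singleton_le_iff_mem e _).2 (h i)) le_sup_left
      have h5 := Submodule.finrank_mono h4
      rwa [finrank_span_singleton he] at h5
    have h6 := hU i
    rw [Nat.mul_succ]
    omega

section

variable {k L : Type} [Field k] [Field L] [Algebra k L] {M n : ℕ}

theorem exists_W' (x : Fin (M + 1) → L) (ℓ : Fin (n + 1) → MvPolynomial (Fin (M + 1)) k)
    (hinj : ∀ (D : Derivation k L L) (c : L),
      (∀ j, lin L ℓ (fun i => D (x i) + c * x i) j = 0) → ∀ i, D (x i) + c * x i = 0) :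
    ∃ W : Submodule L (Fin (M + 1) → L), finrank L W ≤ n + 1 ∧ x ∈ W ∧
      ∀ D : Derivation k L L, (fun i => D (x i)) ∈ W := by
  classical
  obtain ⟨W, h1, h2, h3⟩ := exists_W (K := k) x ℓ hinj (lin L ℓ x)
    (fun j => Pi.single j (1 : k)) (by
      intro i
      rw [Finset.sum_eq_single i]
      · rw [Pi.single_eq_same, map_one, one_mul]
      · intro j _ hj
        rw [Pi.single_eq_of_ne (Ne.symm hj), map_zero, zero_mul]
      · intro h; exact absurd (Finset.mem_univ _) h)
  refine ⟨W, h1, h2, fun D => h3 D fun j => ?_⟩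
  have h4 : (fun i => D (algebraMap k L ((Pi.single j (1 : k) : Fin (n + 1) → k) i))) = 0 := by
    funext i
    rw [D.map_algebraMap]
    rfl
  rw [h4]
  exact Submodule.zero_mem _

end

section

variable {k K L : Type} [Field k] [Field K] [Field L] [Algebra k K] [Algebra K L]
    [Algebra k L] {M n q δ : ℕ} {d : Fin q → ℕ}

/-- the logarithmic differentials of the forms at a point -/
noncomputable def Phi (t : Idx M d → K) (x : Fin (M + 1) → L) :
    (Fin (M + 1) → L) →ₗ[L] (Fin q → L) :=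
  LinearMap.pi fun b => (fv t x b)⁻¹ • dfv t x b

theorem Phi_apply (t : Idx M d → K) (x y : Fin (M + 1) → L) (b : Fin q) :
    Phi t x y b = (fv t x b)⁻¹ * dfv t x b y := rfl

theorem Phi_self (t : Idx M d → K) (x : Fin (M + 1) → L) (h : ∀ b, fv t x b ≠ 0) :
    Phi t x x = fun b => (d b : L) := by
  funext b
  rw [Phi_apply, dfv_self]
  field_simp [h b]

theorem exists_subspace [CharZero k] [IsScalarTower k K L] (hA : AlgStm)
    {V : Set (MvPolynomial (Fin (M + 1)) k)} (hV : ∀ H ∈ V, ∃ e, H.IsHomogeneous e)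
    {ℓ : Fin (n + 1) → MvPolynomial (Fin (M + 1)) k} (hℓ : ∀ j, (ℓ j).IsHomogeneous 1)
    (hN : NoZero V ℓ) (hd : ∀ i, 1 ≤ d i) (hq : 1 ≤ q) (t : Idx M d → K)
    (x : Fin δ → Fin (M + 1) → L) (hx : ∀ l, ∀ H ∈ V, eval₂ (algebraMap k L) (x l) H = 0)
    (hoff : ∀ l b, fv t (x l) b ≠ 0) (hx0 : ∀ l, x l ≠ 0) :
    ∃ W : Submodule L (Fin q → L), finrank L W ≤ n * δ + 1 ∧ (fun b => (d b : L)) ∈ W ∧
      ∀ l, ∀ D : Derivation k L L, Phi t (x l) (fun i => D (x l i)) ∈ W := by
  classical
  have : CharZero L := charZero_of_injective_algebraMap (algebraMap k L).injective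
  have h1 : ∀ l, ∃ W : Submodule L (Fin (M + 1) → L), finrank L W ≤ n + 1 ∧ x l ∈ W ∧
      ∀ D : Derivation k L L, (fun i => D (x l i)) ∈ W := fun l =>
    exists_W' (x l) ℓ (fun D c' h => inj_of_lin hA hV hℓ hN (hx l) (hx0 l) D c' h)
  choose W hW1 hW2 hW3 using h1
  have he : (fun b => (d b : L)) ≠ 0 := by
    intro h
    have h2 := congrFun h ⟨0, hq⟩
    have h3 := hd ⟨0, hq⟩
    rw [Pi.zero_apply, Nat.cast_eq_zero] at h2
    omega
  refine ⟨(Submodule.span L {fun b => (d b : L)}) ⊔
    Finset.univ.sup fun l => (W l).map (Phi t (x l)), ?_, ?_, ?_⟩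
  · have h2 := dim_sup (fun b => (d b : L)) he n Finset.univ
      (fun l => (W l).map (Phi t (x l))) (fun l =>
        (Submodule.finrank_map_le (Phi t (x l)) (W l)).trans (hW1 l)) (fun l =>
        ⟨x l, hW2 l, Phi_self t (x l) (hoff l)⟩)
    rwa [Finset.card_univ, Fintype.card_fin] at h2
  · exact Submodule.mem_sup_left (Submodule.mem_span_singleton_self _)
  · intro l D
    refine Submodule.mem_sup_right ?_
    have h2 : (W l).map (Phi t (x l)) ≤ Finset.univ.sup fun l => (W l).map (Phi t (x l)) :=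
      Finset.le_sup (f := fun l => (W l).map (Phi t (x l))) (Finset.mem_univ l)
    exact h2 ⟨_, hW3 l D, rfl⟩

end

end Pool.Agent.NH8.GD.Stc
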