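import Pool.Agent.NH8.GD.Stm
import Pool.Agent.NH29.GN.Stm2

/-!
# Project GE: uniformity in the coefficients
-/

set_option autoImplicit false

namespace Pool.Agent.NH8.GD

open MvPolynomial Module Filter Pool.Agent.NH29.GN
open scoped LinearAlgebra.Projectivization

/-- the tuples of points of `V` off `F_b = 0` with the quotients of the norms in `Γ` -/
def TupK {k K : Type} [Field k] [Field K] [Algebra k K] {M q : ℕ}
    (V : Set (MvPolynomial (Fin (M + 1)) k)) {d : Fin q → ℕ}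
    (t : Idx M d → K) (δ : ℕ) (Γ : Subgroup Kˣ) : Set (Fin δ → ℙ K (Fin (M + 1) → K)) :=
  {P | (∀ l, ∀ H ∈ V, aeval (P l).rep H = 0) ∧ (∀ l b, fv t (P l).rep b ≠ 0) ∧
    ∀ b b', ∃ γ ∈ Γ, qn t (fun l => (P l).rep) b' b = (γ : K)}

/-- GE-STU: more and more tuples with quotients in a fixed finitely generated group, for varying
coefficients, have a limit which is not constant -/
def StuStm : Prop :=
  ∀ (k K : Type) [Field k] [Field K] [Algebra k K] [IsAlgClosed K] [CharZero k], UEU K →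
    ∀ (M q δ : ℕ) (V : Set (MvPolynomial (Fin (M + 1)) k)),
    (∀ H ∈ V, ∃ e, H.IsHomogeneous e) → ∀ (d : Fin q → ℕ)
    (t : ℕ → Idx M d → K) (Γ : Subgroup Kˣ), Γ.FG →
    (∀ N : ℕ, ∃ P : Fin N → (Fin δ → ℙ K (Fin (M + 1) → K)), Function.Injective P ∧
      ∀ j, P j ∈ TupK V (t N) δ Γ) →
    letI : Algebra k (UP K) := ((algebraMap K (UP K)).comp (algebraMap k K)).toAlgebra
    ∃ x : Fin δ → Fin (M + 1) → UP (UP K),
      Bad k (UP K) (UP (UP K)) V (fun i => UP.mk fun N => t N i) x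

end Pool.Agent.NH8.GD
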