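import Pool.Agent.NH8.GD.Stm2
import Pool.Agent.NH8.GD.Sta
import Pool.Agent.NH29.GN.Stu

/-!
# GE-STU: more and more tuples for varying coefficients give a bad tuple over the double ultrapower
-/

set_option autoImplicit false

namespace Pool.Agent.NH8.GD

open MvPolynomial Module Filter Pool.Agent.NH29.GN
open scoped LinearAlgebra.Projectivization

namespace STU58

open Pool.Agent.NH29.GN.STA Pool.Agent.NH29.GN.STU92

lemma mk_pv2 {K : Type} [Field K] {M q δ : ℕ} {d : Fin q → ℕ} (t : ℕ → Idx M d → K)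
    (p : Fin δ → ℕ → Fin (M + 1) → K) (b : Fin q) :
    pv (K := UP K) (L := UP K) (fun j => mkH K (fun N => t N j)) (fun l => lim (p l)) b =
      mkH K (fun N => pv (t N) (fun l => p l N) b) := by
  have h : (fun N => pv (t N) (fun l => p l N) b) = ∏ l, (fun N => fv (t N) (p l N) b) := by
    funext s
    rw [Finset.prod_apply]
    rfl
  rw [h, map_prod]
  unfold pv
  refine Finset.prod_congr rfl fun l _ => ?_
  rw [mk_fv2]

end STU58

open STA STU58 Pool.Agent.NH29.GN.STA Pool.Agent.NH29.GN.STU92 in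
theorem stu : StuStm := by
  intro k K _ _ _ _ _ hUE M q δ V _ d t Γ hΓ hyp
  let _ : Algebra k (UP K) := ((algebraMap K (UP K)).comp (algebraMap k K)).toAlgebra
  choose P hPi hP using hyp
  -- the points
  let p : Fin δ → ℕ → ℕ → Fin (M + 1) → K := fun l s N =>
    if h : s < N then (P N ⟨s, h⟩ l).rep else 0
  have hp : ∀ (l : Fin δ) (s N : ℕ) (h : s < N), p l s N = (P N ⟨s, h⟩ l).rep :=
    fun l s N h => dif_pos h
  have hpne : ∀ (l : Fin δ) (s N : ℕ), s < N → p l s N ≠ 0 := fun l s N h => by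
    rw [hp l s N h]; exact (P N ⟨s, h⟩ l).rep_nonzero
  let y : Fin δ → ℕ → Fin (M + 1) → UP K := fun l s => lim (p l s)
  let t1 : Idx M d → UP K := fun i => mkH K fun N => t N i
  have hyfv : ∀ l s b, fv t1 (y l s) b = mkH K (fun N => fv (t N) (p l s N) b) := fun l s b =>
    mk_fv2 t (p l s) b
  have hypv : ∀ s b, pv t1 (fun l => y l s) b = mkH K (fun N => pv (t N) (fun l => p l s N) b) :=
    fun s b => mk_pv2 t (fun l N => p l s N) b
  have hyne : ∀ l s, y l s ≠ 0 := by
    intro l s h0
    have h1 : ∀ i, ∀ᶠ N in ((hyperfilter ℕ : Ultrafilter ℕ) : Filter ℕ), p l s N i = 0 := by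
      intro i
      exact (mk_eq_zero _).mp (congrFun h0 i)
    obtain ⟨N, hN, hs⟩ := ((Filter.eventually_all.mpr h1).and (large s)).exists
    exact hpne l s N hs (funext hN)
  have hyoff : ∀ l s b, fv t1 (y l s) b ≠ 0 := by
    intro l s b
    rw [hyfv]
    refine mk_ne_zero' _ ?_
    filter_upwards [large s] with N hN
    rw [hp l s N hN]
    exact (hP N _).2.1 l b
  have hypv0 : ∀ s b, pv t1 (fun l => y l s) b ≠ 0 := fun s b =>
    Finset.prod_ne_zero_iff.2 fun l _ => hyoff l s b
  have hyV : ∀ l s, ∀ H ∈ V, aeval (y l s) H = 0 := by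
    intro l s H hH
    have h1 : aeval (y l s) H =
        eval₂ ((algebraMap K (UP K)).comp (algebraMap k K)) (lim (p l s)) H := rfl
    rw [h1, mk_eval, mk_eq_zero]
    filter_upwards [large s] with N hN
    rw [hp l s N hN]
    exact (hP N _).1 l H hH
  have hprop : ∀ (s₁ s₂ : ℕ), (∀ l, ∃ c : UP K, ∀ i, y l s₂ i = c * y l s₁ i) → s₁ = s₂ := by
    intro s₁ s₂ hc
    choose c hc using hc
    choose g hg using fun l => mk_surj (c l)
    have h1 : ∀ l i, ∀ᶠ N in ((hyperfilter ℕ : Ultrafilter ℕ) : Filter ℕ),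
        p l s₂ N i = g l N * p l s₁ N i := by
      intro l i
      have := hc l i
      rw [← hg l] at this
      exact (mk_eq _ _).mp this
    obtain ⟨N, ⟨hN, hN1⟩, hN2⟩ :=
      (((Filter.eventually_all.mpr fun l => Filter.eventually_all.mpr (h1 l)).and
        (large s₁)).and (large s₂)).exists
    have h2 : P N ⟨s₁, hN1⟩ = P N ⟨s₂, hN2⟩ := by
      funext l
      rw [← (P N ⟨s₁, hN1⟩ l).mk_rep, ← (P N ⟨s₂, hN2⟩ l).mk_rep, eq_comm,
        Projectivization.mk_eq_mk_iff']
      refine ⟨g l N, ?_⟩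
      funext i
      rw [Pi.smul_apply, smul_eq_mul, ← hp l s₁ N hN1, ← hp l s₂ N hN2]
      exact (hN l i).symm
    have h3 := hPi N h2
    simpa using h3
  refine ⟨fun l => lim (K := UP K) (fun s => y l s), ?_, ?_, ?_, ?_, ?_⟩
  · intro l H hH
    rw [mk_eval (k := k) (K := UP K) (fun s => y l s) H]
    have : (fun s => aeval (y l s) H) = (0 : ℕ → UP K) := by
      funext s; exact hyV l s H hH
    rw [this, map_zero]
  · intro l b
    show fv t1 (lim (K := UP K) (fun s => y l s)) b ≠ 0
    rw [mk_fv (K := UP K)]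
    exact mk_ne_zero _ (fun s => hyoff l s b)
  · intro l h0
    have h1 : ∀ i, ∀ᶠ s in ((hyperfilter ℕ : Ultrafilter ℕ) : Filter ℕ), y l s i = 0 := by
      intro i
      have := congrFun h0 i
      exact (mk_eq_zero _).mp this
    obtain ⟨s, hs⟩ := (Filter.eventually_all.mpr h1).exists
    exact hyne l s (funext hs)
  · intro hall
    choose c z hxz using hall
    choose f hf using fun l => mk_surj (c l)
    have h1 : ∀ l i, ∀ᶠ s in ((hyperfilter ℕ : Ultrafilter ℕ) : Filter ℕ),
        y l s i = f l s * z l i := by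
      intro l i
      have := congrFun (hxz l) i
      rw [← hf l] at this
      exact (mk_eq _ _).mp this
    have h2 := Filter.eventually_all.mpr fun l => Filter.eventually_all.mpr (h1 l)
    have h3 : {s | ∀ l i, y l s i = f l s * z l i}.Infinite := by
      intro hfin
      exact (notMem_hyperfilter_of_finite hfin) h2
    obtain ⟨s₁, hs₁, s₂, hs₂, hne⟩ := h3.nontrivial
    apply hne
    refine hprop s₁ s₂ fun l => ?_
    have hf1 : f l s₁ ≠ 0 := by
      intro h
      apply hyne l s₁
      funext i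
      rw [hs₁ l i, h, zero_mul]
      rfl
    refine ⟨f l s₂ / f l s₁, fun i => ?_⟩
    rw [hs₁ l i, hs₂ l i]
    field_simp
  · intro b₀
    -- the quotients as units
    have hw : ∀ b s N, ∃ γ : Kˣ, γ ∈ Γ ∧
        (γ : K) = if ¬ s < N then 1 else qn (t N) (fun l => p l s N) b₀ b := by
      intro b s N
      by_cases hN : s < N
      · obtain ⟨γ, hγ, h⟩ := (hP N ⟨s, hN⟩).2.2 b b₀
        refine ⟨γ, hγ, ?_⟩
        rw [if_neg (not_not.2 hN), ← h]
        congr 1
        funext l
        exact (hp l s N hN).symm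
      · exact ⟨1, Γ.one_mem, by rw [if_pos hN]; rfl⟩
    choose w hwΓ hwv using hw
    have hquo1 : ∀ b s, pv t1 (fun l => y l s) b ^ d b₀ / pv t1 (fun l => y l s) b₀ ^ d b =
        mkH K (fun N => (w b s N : K)) := by
      intro b s
      rw [div_eq_iff (pow_ne_zero _ (hypv0 s b₀)), hypv, hypv, ← map_pow, ← map_pow,
        ← map_mul, mkH_apply, mkH_apply, mk_eq]
      filter_upwards [large s] with N hN
      have h1 : pv (t N) (fun l => p l s N) b₀ ≠ 0 := by
        refine Finset.prod_ne_zero_iff.2 fun l _ => ?_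
        show fv (t N) (p l s N) b₀ ≠ 0
        rw [hp l s N hN]
        exact (hP N _).2.1 l b₀
      rw [Pi.mul_apply, Pi.pow_apply, Pi.pow_apply, hwv, if_neg (not_not.2 hN)]
      unfold qn
      field_simp
    have hquo : ∀ b, qn t1 (fun l => lim (K := UP K) (fun s => y l s)) b₀ b =
        mkH (UP K) (fun s => ((un (w b s) : (UP K)ˣ) : UP K)) := by
      intro b
      have e : (fun s => ((un (w b s) : (UP K)ˣ) : UP K)) = fun s =>
          (fun s => pv t1 (fun l => y l s) b ^ d b₀) s /
            (fun s => pv t1 (fun l => y l s) b₀ ^ d b) s := by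
        funext s
        rw [un_val, ← hquo1 b s]
      rw [e, ← mk_div _ _ (fun s => pow_ne_zero _ (hypv0 s b₀))]
      unfold qn
      rw [mk_pv (K := UP K) t1 (fun l s => y l s) b, mk_pv (K := UP K) t1 (fun l s => y l s) b₀,
        ← map_pow, ← map_pow]
      rfl
    intro S c hsum hnp m hm
    have hquo' : ∀ b, qn (fun i => UP.mk fun N => t N i)
        (fun l => lim (K := UP K) (fun s => y l s)) b₀ b =
        mkH (UP K) (fun s => ((un (w b s) : (UP K)ˣ) : UP K)) := hquo
    simp only [hquo', mk_prod_zpow, un_prod] at hsum hnp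
    have key := hUE Γ hΓ (hyperfilter ℕ) S (fun m s N => ∏ b, w b s N ^ (m.1 b)) ?_ ?_
      (fun m => c m.1) ?_ ⟨m, hm⟩
    · exact key
    · intro m s N
      exact Subgroup.prod_mem _ (fun b _ => Subgroup.zpow_mem _ (hwΓ b s N) _)
    · intro m m' hmm a hev
      refine hnp m.1 m.2 m'.1 m'.2 (fun h => hmm (Subtype.ext h)) a ?_
      rw [algMap, ← map_mul]
      exact (mk_eq _ _).mpr hev
    · have h1 : ∑ m ∈ S, algebraMap (UP K) (UP (UP K)) (c m) *
          mkH (UP K) (fun s => mkH K (fun N => ((∏ b, w b s N ^ m b : Kˣ) : K))) =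
          mkH (UP K) (∑ m ∈ S, (fun _ => c m) *
            fun s => mkH K (fun N => ((∏ b, w b s N ^ m b : Kˣ) : K))) := by
        rw [map_sum]
        exact Finset.sum_congr rfl (fun m _ => by rw [map_mul, algMap])
      rw [h1, mk_eq_zero] at hsum
      filter_upwards [hsum] with s hs
      rw [Finset.sum_apply] at hs
      rw [← hs, ← Finset.sum_coe_sort S]
      rfl

end Pool.Agent.NH8.GD
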